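import Pool.Agent.K3h18.PX.Places

/-!
# Parity of the numbers of primes modulo which an integer is a square
-/

set_option autoImplicit false
set_option linter.style.haveILetI false
set_option linter.unusedSectionVars false

namespace Pool.Agent.K3h18.PX

open NumberField Ideal Pointwise Finset

/-- the primes over `p` modulo which `c` is a square -/
def Sq (p : ℕ) (c : ℤ) (R : Type) [CommRing R] : Set (Ideal R) :=
  {P | P ∈ primesOver (span {(p : ℤ)}) R ∧ ∃ x : R, x ^ 2 - (c : R) ∈ P}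

section

variable (K : Type) [Field K] [NumberField K]

theorem int_mem' {p : ℕ} {P : Ideal (𝓞 K)}
    (hP : P ∈ primesOver (span {(p : ℤ)}) (𝓞 K)) (c : ℤ) : (c : 𝓞 K) ∈ P ↔ (p : ℤ) ∣ c := by
  have h2 : P.LiesOver (span {(p : ℤ)}) := hP.2
  rw [← mem_span_singleton, h2.over, under_def, mem_comap, eq_intCast]

theorem two_x {p : ℕ} (hp : p.Prime) (hp2 : p ≠ 2) {c : ℤ} (hc : ¬ (p : ℤ) ∣ c) {P : Ideal (𝓞 K)}
    (hP : P ∈ primesOver (span {(p : ℤ)}) (𝓞 K)) {x : 𝓞 K} (hx : x ^ 2 - (c : 𝓞 K) ∈ P) :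
    2 * x ∉ P := by
  intro h
  have h1 : P.IsPrime := hP.1
  rcases h1.mem_or_mem h with h2 | h2
  · have h3 := (int_mem' K hP 2).mp (by exact_mod_cast h2)
    have h4 : p ∣ 2 := by exact_mod_cast h3
    exact hp2 ((Nat.prime_dvd_prime_iff_eq hp Nat.prime_two).mp h4)
  · apply hc
    rw [← int_mem' K hP]
    have h3 := P.sub_mem (P.mul_mem_left x h2) hx
    have h4 : x * x - (x ^ 2 - (c : 𝓞 K)) = c := by ring
    rwa [h4] at h3

theorem cos_congr {P : Ideal (𝓞 K)} {x y : 𝓞 K} (h : x - y ∈ P) :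
    {z : 𝓞 K | z - x ∈ P} = {z : 𝓞 K | z - y ∈ P} := by
  ext z
  constructor
  · intro hz
    have := P.add_mem hz h
    rwa [sub_add_sub_cancel] at this
  · intro hz
    have := P.sub_mem hz h
    rwa [sub_sub_sub_cancel_right] at this

theorem cos_or {P : Ideal (𝓞 K)} (hP : P.IsPrime) {c : ℤ} {x y : 𝓞 K}
    (hx : x ^ 2 - (c : 𝓞 K) ∈ P) (hy : y ^ 2 - (c : 𝓞 K) ∈ P) :
    {z : 𝓞 K | z - y ∈ P} = {z : 𝓞 K | z - x ∈ P} ∨
      {z : 𝓞 K | z - y ∈ P} = {z : 𝓞 K | z - (-x) ∈ P} := by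
  have h7 : (y - x) * (y + x) ∈ P := by
    have h8 : (y - x) * (y + x) = (y ^ 2 - (c : 𝓞 K)) - (x ^ 2 - (c : 𝓞 K)) := by ring
    rw [h8]
    exact P.sub_mem hy hx
  rcases hP.mem_or_mem h7 with h | h
  · exact Or.inl (cos_congr K h)
  · right
    apply cos_congr K
    rwa [sub_neg_eq_add]

theorem fin_primes {p : ℕ} (hp : p.Prime) : (primesOver (span {(p : ℤ)}) (𝓞 K)).Finite := by
  have : Fact p.Prime := ⟨hp⟩
  have hmax : (span {(p : ℤ)}).IsMaximal := Int.ideal_span_isMaximal_of_prime p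
  exact Set.toFinite _

theorem Z_fin {p : ℕ} (hp : p.Prime) (c : ℤ) : (Z p c (𝓞 K)).Finite := by
  classical
  let r : Ideal (𝓞 K) → 𝓞 K := fun P =>
    if h : ∃ x : 𝓞 K, x ^ 2 - (c : 𝓞 K) ∈ P then h.choose else 0
  have hr : ∀ P : Ideal (𝓞 K), (∃ x : 𝓞 K, x ^ 2 - (c : 𝓞 K) ∈ P) →
      (r P) ^ 2 - (c : 𝓞 K) ∈ P := by
    intro P h
    simp only [r, dif_pos h]
    exact h.choose_spec
  refine (Set.Finite.biUnion (fin_primes K hp) (t := fun P =>
    ({(P, {z : 𝓞 K | z - r P ∈ P}), (P, {z : 𝓞 K | z - (- r P) ∈ P}), (P, ∅)} :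
      Set (Ideal (𝓞 K) × Set (𝓞 K)))) fun P _ => Set.toFinite _).subset ?_
  rintro ⟨P, C⟩ ⟨h1, h2⟩
  rw [Set.mem_iUnion₂]
  refine ⟨P, h1, ?_⟩
  rcases h2 with ⟨x, h3, h4⟩ | ⟨h3, h4⟩
  · have h4' : C = {y | y - x ∈ P} := h4
    rcases cos_or K h1.1 (hr P ⟨x, h3⟩) h3 with h5 | h5
    · left
      rw [h4', h5]
    · right; left
      rw [h4', h5]
  · right; right
    have h4' : C = ∅ := h4
    rw [h4']
    rfl

theorem Z_card {p : ℕ} (hp : p.Prime) (hp2 : p ≠ 2) {c : ℤ} (hc : ¬ (p : ℤ) ∣ c) :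
    (Z p c (𝓞 K)).ncard = (primesOver (span {(p : ℤ)}) (𝓞 K)).ncard + (Sq p c (𝓞 K)).ncard := by
  classical
  have hT := fin_primes K hp
  have hS : (Sq p c (𝓞 K)).Finite := hT.subset fun P h => h.1
  have hZ := Z_fin K hp c
  rw [Set.ncard_eq_toFinset_card _ hZ, Set.ncard_eq_toFinset_card _ hT,
    Set.ncard_eq_toFinset_card _ hS]
  have h1 : hZ.toFinset.card = ∑ P ∈ hT.toFinset, (hZ.toFinset.filter (fun z => z.1 = P)).card := by
    refine Finset.card_eq_sum_card_fiberwise fun z hz => ?_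
    rw [mem_coe, Set.Finite.mem_toFinset] at hz ⊢
    exact hz.1
  have h2 : ∀ P ∈ hT.toFinset, (hZ.toFinset.filter (fun z => z.1 = P)).card =
      1 + if P ∈ hS.toFinset then 1 else 0 := by
    intro P hP
    rw [Set.Finite.mem_toFinset] at hP
    by_cases h : ∃ x : 𝓞 K, x ^ 2 - (c : 𝓞 K) ∈ P
    · have hPS : P ∈ hS.toFinset := by
        rw [Set.Finite.mem_toFinset]
        exact ⟨hP, h⟩
      rw [if_pos hPS]
      obtain ⟨x, hx⟩ := h
      have hx' : (-x) ^ 2 - (c : 𝓞 K) ∈ P := by rwa [neg_sq]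
      have h3 : hZ.toFinset.filter (fun z => z.1 = P) =
          {(P, {z : 𝓞 K | z - x ∈ P}), (P, {z : 𝓞 K | z - (-x) ∈ P})} := by
        ext ⟨Q, C⟩
        rw [mem_filter, Set.Finite.mem_toFinset, mem_insert, mem_singleton]
        constructor
        · rintro ⟨⟨h4, h5⟩, h6⟩
          change Q = P at h6
          subst h6
          rcases h5 with ⟨y, h6, h7⟩ | ⟨h6, -⟩
          · have h7' : C = {z | z - y ∈ Q} := h7
            rcases cos_or K hP.1 hx h6 with h8 | h8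
            · left; rw [h7', h8]
            · right; rw [h7', h8]
          · exact absurd hx (h6 x)
        · rintro (h4 | h4)
          · rw [h4]
            exact ⟨⟨hP, Or.inl ⟨x, hx, rfl⟩⟩, rfl⟩
          · rw [h4]
            exact ⟨⟨hP, Or.inl ⟨-x, hx', rfl⟩⟩, rfl⟩
      rw [h3, card_pair]
      intro h4
      have h5 := congrArg Prod.snd h4
      have h6 : x ∈ {z : 𝓞 K | z - x ∈ P} := by
        change x - x ∈ P
        rw [sub_self]
        exact P.zero_mem
      change {z : 𝓞 K | z - x ∈ P} = {z : 𝓞 K | z - (-x) ∈ P} at h5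
      rw [h5] at h6
      have h7 : x - (-x) ∈ P := h6
      rw [sub_neg_eq_add, ← two_mul] at h7
      exact two_x K hp hp2 hc hP hx h7
    · have hPS : P ∉ hS.toFinset := by
        rw [Set.Finite.mem_toFinset]
        exact fun h' => h h'.2
      rw [if_neg hPS, add_zero]
      push Not at h
      have h3 : hZ.toFinset.filter (fun z => z.1 = P) = {(P, ∅)} := by
        ext ⟨Q, C⟩
        rw [mem_filter, Set.Finite.mem_toFinset, mem_singleton]
        constructor
        · rintro ⟨⟨h4, h5⟩, h6⟩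
          change Q = P at h6
          subst h6
          rcases h5 with ⟨y, h6, -⟩ | ⟨-, h7⟩
          · exact absurd h6 (h y)
          · have h7' : C = ∅ := h7
            rw [h7']
        · intro h4
          rw [h4]
          exact ⟨⟨hP, Or.inr ⟨h, rfl⟩⟩, rfl⟩
      rw [h3, card_singleton]
  rw [h1, sum_congr rfl h2, sum_add_distrib, sum_const, smul_eq_mul, mul_one]
  congr 1
  rw [← sum_filter, sum_const, smul_eq_mul, mul_one]
  congr 1
  ext P
  rw [mem_filter]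
  constructor
  · exact fun h => h.2
  · intro h
    refine ⟨?_, h⟩
    rw [Set.Finite.mem_toFinset] at h ⊢
    exact h.1

end

section

variable (k K M L : Type) [Field k] [NumberField k] [Field K] [NumberField K]
  [Field M] [NumberField M] [Field L] [NumberField L]
  [Algebra k K] [Algebra K L] [Algebra k L] [IsScalarTower k K L]
  [Algebra k M] [Algebra M L] [IsScalarTower k M L] [IsGalois K L] [IsGalois M L]

theorem par_inf (h : PP (gal k K L) (gal k M L)) :
    Even (Nat.card (InfinitePlace K) + Nat.card (InfinitePlace M)) := by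
  have h1 := pp_count h (Set.univ : Set (InfinitePlace L)) (Set.toFinite _)
    (fun _ _ _ => trivial) (orb_inf k K L) (orb_inf k M L)
  rwa [Set.ncard_univ, Set.ncard_univ] at h1

theorem par_primes (h : PP (gal k K L) (gal k M L)) {p : ℕ} (hp : p.Prime) :
    Even ((primesOver (span {(p : ℤ)}) (𝓞 K)).ncard +
      (primesOver (span {(p : ℤ)}) (𝓞 M)).ncard) :=
  pp_count h _ (fin_primes L hp) (fun g _ hP => over_smul k L g hP) (orb_primes k K L hp)
    (orb_primes k M L hp)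

theorem par_Z (h : PP (gal k K L) (gal k M L)) {p : ℕ} (hp : p.Prime) (c : ℤ) :
    Even ((Z p c (𝓞 K)).ncard + (Z p c (𝓞 M)).ncard) :=
  pp_count h _ (Z_fin L hp c) (Z_stable k L) (orb_Z k K L hp c) (orb_Z k M L hp c)

theorem par_Sq (h : PP (gal k K L) (gal k M L)) {p : ℕ} (hp : p.Prime) (hp2 : p ≠ 2) {c : ℤ}
    (hc : ¬ (p : ℤ) ∣ c) : Even ((Sq p c (𝓞 K)).ncard + (Sq p c (𝓞 M)).ncard) := by
  have h1 := par_Z k K M L h hp c
  have h2 := par_primes k K M L h hp
  rw [Z_card K hp hp2 hc, Z_card M hp hp2 hc] at h1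
  have h3 : (primesOver (span {(p : ℤ)}) (𝓞 K)).ncard + (Sq p c (𝓞 K)).ncard +
      ((primesOver (span {(p : ℤ)}) (𝓞 M)).ncard + (Sq p c (𝓞 M)).ncard) =
      ((primesOver (span {(p : ℤ)}) (𝓞 K)).ncard + (primesOver (span {(p : ℤ)}) (𝓞 M)).ncard) +
      ((Sq p c (𝓞 K)).ncard + (Sq p c (𝓞 M)).ncard) := by ring
  rw [h3] at h1
  exact (Nat.even_add.mp h1).mp h2

end

end Pool.Agent.K3h18.PX
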