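import Pool.Agent.K3h18.PX.Pair
import Pool.Agent.Y624.OG.ODDG

/-!
# Central elements which are products of squares
-/

set_option autoImplicit false
set_option linter.style.haveILetI false
set_option linter.unusedSectionVars false

namespace Pool.Agent.K3h18.PX

section

variable {G : Type} [Group G] (A : Type) [AddCommGroup A] [DistribMulAction G A]

/-- the action of an element as a linear map -/
def lin (g : G) : A →ₗ[ℤ] A := (DistribSMul.toAddMonoidHom A g).toIntLinearMap

theorem lin_apply (g : G) (a : A) : lin A g a = g • a := rfl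

/-- the fixed points -/
def fx (U : Subgroup G) : Submodule ℤ A where
  carrier := {a | ∀ u ∈ U, u • a = a}
  add_mem' := by
    intro a b ha hb u hu
    rw [smul_add, ha u hu, hb u hu]
  zero_mem' := fun u _ => smul_zero u
  smul_mem' := by
    intro n a ha u hu
    change lin A u (n • a) = n • a
    rw [map_smul, lin_apply, ha u hu]

theorem mem_fx {U : Subgroup G} {a : A} : a ∈ fx A U ↔ ∀ u ∈ U, u • a = a := Iff.rfl

theorem fx_rank (U : Subgroup G) :
    Module.finrank ℤ (FixedPoints.addSubgroup U A) = Module.finrank ℤ (fx A U) := by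
  let e : FixedPoints.addSubgroup U A ≃+ fx A U :=
    { toFun := fun a => ⟨a.1, fun u hu => a.2 ⟨u, hu⟩⟩
      invFun := fun a => ⟨a.1, fun u => a.2 u u.2⟩
      left_inv := fun a => rfl
      right_inv := fun a => rfl
      map_add' := fun a b => rfl }
  exact e.toIntLinearEquiv.finrank_eq

/-- it is enough to consider free modules -/
theorem PP_of_free {H H' : Subgroup G} (h : ∀ (B : Type) [AddCommGroup B] [Module.Free ℤ B]
    [Module.Finite ℤ B] [DistribMulAction G B],
    Even (Module.finrank ℤ (fx B H) + Module.finrank ℤ (fx B H'))) : PP H H' := by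
  intro A _ _ _
  obtain ⟨t, ht0, ht⟩ := Pool.Agent.Y624.OG.tor (M := A)
  let L : Submodule ℤ A := LinearMap.range (t • (LinearMap.id : A →ₗ[ℤ] A))
  have hL : ∀ x ∈ L, ∃ m, t • m = x := fun x hx => by
    obtain ⟨m, hm⟩ := hx
    exact ⟨m, hm⟩
  have hL' : ∀ m, t • m ∈ L := fun m => ⟨m, rfl⟩
  have hg : ∀ (g : G) (x : L), g • (x : A) ∈ L := by
    intro g x
    obtain ⟨m, hm⟩ := hL x x.2
    rw [← hm]
    have : g • (t • m) = t • (g • m) := map_smul (lin A g) t m
    rw [this]
    exact hL' _
  letI act : DistribMulAction G L :=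
    { smul := fun g x => ⟨g • (x : A), hg g x⟩
      one_smul := fun x => Subtype.ext (one_smul G (x : A))
      mul_smul := fun g h x => Subtype.ext (mul_smul g h (x : A))
      smul_zero := fun g => Subtype.ext (smul_zero g)
      smul_add := fun g x y => Subtype.ext (smul_add g (x : A) (y : A)) }
  have hact : ∀ (g : G) (x : L), ((g • x : L) : A) = g • (x : A) := fun g x => rfl
  have hLtf : Module.IsTorsionFree ℤ L := by
    refine Module.IsTorsionFree.of_smul_eq_zero fun n x h => ?_
    obtain ⟨m, hm⟩ := hL x x.2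
    by_cases hn : n = 0
    · exact Or.inl hn
    · right
      have h1 : n • (x : A) = 0 := congrArg Subtype.val h
      rw [← hm, smul_smul] at h1
      exact Subtype.ext (by rw [← hm]; exact ht m _ (mul_ne_zero hn ht0) h1)
  haveI : Module.Free ℤ L := Module.free_of_finite_type_torsion_free'
  have key : ∀ U : Subgroup G, Module.finrank ℤ (fx L U) = Module.finrank ℤ (fx A U) := by
    intro U
    let J : Submodule ℤ (fx A U) := L.comap (fx A U).subtype
    have e : fx L U ≃ₗ[ℤ] J :=
      { toFun := fun x => ⟨⟨x.1.1, fun u hu => by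
          have := x.2 u hu
          exact congrArg Subtype.val this⟩, x.1.2⟩
        invFun := fun x => ⟨⟨x.1.1, x.2⟩, fun u hu => Subtype.ext (x.1.2 u hu)⟩
        left_inv := fun x => rfl
        right_inv := fun x => rfl
        map_add' := fun x y => rfl
        map_smul' := fun n x => rfl }
    rw [e.finrank_eq]
    exact Pool.Agent.Y624.OG.fr J t ht0 fun a => hL' _
  rw [fx_rank, fx_rank, ← key H, ← key H']
  exact h L

/-- the determinant trick -/
theorem inv_even [Finite G] (B : Type) [AddCommGroup B] [Module.Free ℤ B] [Module.Finite ℤ B]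
    (ρ : G →* (B →ₗ[ℤ] B)) (z : G) (hz1 : ∀ (g : G) (b : B), ρ g (ρ z b) = ρ z (ρ g b))
    (hz2 : ∀ b : B, ρ z (ρ z b) = b) (hz3 : z ∈ Subgroup.closure {x : G | ∃ g, x = g * g}) :
    Even (Module.finrank ℤ B + Module.finrank ℤ (LinearMap.ker (LinearMap.id - ρ z))) := by
  let f : B →ₗ[ℤ] B := LinearMap.id - ρ z
  have hf : ∀ b, f b = b - ρ z b := fun b => rfl
  have h1 := Submodule.finrank_quotient_add_finrank (LinearMap.ker f)
  rw [f.quotKerEquivRange.finrank_eq] at h1
  have hR : ∀ g : G, ∀ x ∈ LinearMap.range f, ρ g x ∈ LinearMap.range f := by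
    rintro g _ ⟨b, rfl⟩
    refine ⟨ρ g b, ?_⟩
    rw [hf, hf, map_sub, hz1]
  let D : G →* ℤ :=
    { toFun := fun g => LinearMap.det ((ρ g).restrict (hR g))
      map_one' := by
        have : (ρ 1).restrict (hR 1) = LinearMap.id := by
          ext x
          change (ρ 1 (x : B)) = x
          rw [map_one]
          rfl
        rw [this, LinearMap.det_id]
      map_mul' := by
        intro g h
        rw [← LinearMap.det_comp]
        congr 1
        ext x
        change ρ (g * h) (x : B) = ρ g (ρ h x)
        rw [map_mul]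
        rfl }
  have hDsq : ∀ g : G, D (g * g) = 1 := by
    intro g
    have h2 : IsUnit (D g) := (Group.isUnit g).map D
    rcases Int.isUnit_iff.mp h2 with h3 | h3
    · rw [map_mul, h3, one_mul]
    · rw [map_mul, h3]
      norm_num
  have hDz : D z = 1 := by
    have h2 : z ∈ D.toHomUnits.ker := by
      have h3 : Subgroup.closure {x : G | ∃ g, x = g * g} ≤ D.toHomUnits.ker := by
        rw [Subgroup.closure_le]
        rintro _ ⟨g, rfl⟩
        change D.toHomUnits (g * g) = 1
        apply Units.ext
        exact hDsq g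
      exact h3 hz3
    have h4 := congrArg (fun u : ℤˣ => (u : ℤ)) (MonoidHom.mem_ker.mp h2)
    exact h4
  have hDz' : D z = (-1) ^ Module.finrank ℤ (LinearMap.range f) := by
    have h2 : (ρ z).restrict (hR z) = (-1 : ℤ) • LinearMap.id := by
      ext x
      obtain ⟨b, hb⟩ := x.2
      change ρ z (x : B) = ((-1 : ℤ) • x : LinearMap.range f)
      rw [neg_one_smul, Submodule.coe_neg, ← hb, hf, map_sub, hz2, neg_sub]
    change LinearMap.det ((ρ z).restrict (hR z)) = _
    rw [h2, LinearMap.det_smul, LinearMap.det_id, mul_one]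
  rw [hDz] at hDz'
  have h2 : Even (Module.finrank ℤ (LinearMap.range f)) := by
    rw [← neg_one_pow_eq_one_iff_even (R := ℤ) (by decide)]
    exact hDz'.symm
  change Even (Module.finrank ℤ B + Module.finrank ℤ (LinearMap.ker f))
  rw [← h1, add_assoc]
  exact h2.add ⟨_, rfl⟩

end

end Pool.Agent.K3h18.PX
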