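import Pool.Agent.K3h18.PX.Root

/-!
# The parity of the exponent for the multiquadratic fields
-/

set_option autoImplicit false
set_option linter.style.haveILetI false
set_option linter.unusedSectionVars false

namespace Pool.Agent.K3h18.PX

open Finset NumberField Ideal Pool.Agent.Y667.PA Pool.Agent.Y667.OG Pool.Agent.Y285.RP
  Pool.Agent.Y667.QK Pool.Agent.Y667.QK.EV Pool.Agent.Y837.QKE Pool.Agent.K3h18.PV

section

variable (F : Type) [Field F] [NumberField F]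

open Classical in
theorem even_of {τ : ℕ} {s : Fin 3 → ℕ} (hA : AdT τ) (h : DP s)
    (hcop : Nat.Coprime τ (∏ j, s j)) {k : ℤ} (hk : (s 0 : ℤ) + s 1 = 3 * k) {e : ℕ → ℤ}
    (hok : Ok (insert 2 (∏ j, s j).primeFactors) e)
    (he : ∀ p ∈ insert 2 (∏ j, s j).primeFactors,
      ∀ P ∈ primesOver (span {(p : ℤ)}) (𝓞 F),
        -aP ((Vm ((τ : ℤ) * s 1) ((τ : ℤ) * s 2)).map (Int.castRingHom (𝓞 F))) P =
          if P ∈ Sq p (e p) (𝓞 F) then -1 else 1) [IsGalois ℚ F]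
    (hinf : Even (Nat.card (InfinitePlace F)))
    (hg : ∀ w : ℕ → ℤ, (∀ p ∈ insert 2 (∏ j, s j).primeFactors, (w p = 1 ∨ w p = -1) ∧
      ∀ Q ∈ primesOver (span {(p : ℤ)}) (𝓞 F),
        w p = -aP ((Vm ((τ : ℤ) * s 1) ((τ : ℤ) * s 2)).map (Int.castRingHom (𝓞 F))) Q) →
      ∏ p ∈ insert 2 (∏ j, s j).primeFactors,
        w p ^ (primesOver (span {(p : ℤ)}) (𝓞 F)).ncard = 1) :
    Even (ee F (insert 2 (∏ j, s j).primeFactors) e) := by
  obtain ⟨hm1, -⟩ := MULV F F hA h hcop hk (by rw [Module.finrank_self]; exact odd_one)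
  obtain ⟨S, hSdef⟩ : ∃ S, S = insert 2 (∏ j, s j).primeFactors := ⟨_, rfl⟩
  rw [← hSdef] at hm1 hg he hok ⊢
  have hex : ∀ p : ℕ, ∃ w : ℤ, p ∈ S → (w = 1 ∨ w = -1) ∧
      (∀ Q ∈ primesOver (span {(p : ℤ)}) (𝓞 F),
        w = -aP ((Vm ((τ : ℤ) * s 1) ((τ : ℤ) * s 2)).map (Int.castRingHom (𝓞 F))) Q) := by
    intro p
    by_cases hp : p ∈ S
    · obtain ⟨w, hw⟩ := hm1 p hp
      exact ⟨w, fun _ => ⟨hw.1, hw.2.1⟩⟩
    · exact ⟨0, fun h => absurd h hp⟩
  choose w hw using hex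
  have h1 := hg w hw
  rw [← neg_one_pow_eq_one_iff_even (R := ℤ) (by decide)]
  unfold ee
  rw [pow_add, hinf.neg_one_pow, one_mul, ← prod_pow_eq_pow_sum]
  refine Eq.trans (prod_congr rfl fun p hp => ?_) h1
  rcases (hw p hp).1 with h2 | h2
  · have h3 : Sq p (e p) (𝓞 F) = ∅ := by
      ext P
      rw [Set.mem_empty_iff_false, iff_false]
      intro h4
      have h5 := he p hp P h4.1
      rw [if_pos h4, ← (hw p hp).2 P h4.1, h2] at h5
      norm_num at h5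
    rw [h3, Set.ncard_empty, pow_zero, h2, one_pow]
  · have h3 : Sq p (e p) (𝓞 F) = primesOver (span {(p : ℤ)}) (𝓞 F) := by
      ext P
      constructor
      · exact fun h => h.1
      · intro h4
        by_contra h6
        have h5 := he p hp P h4
        rw [if_neg h6, ← (hw p hp).2 P h4, h2] at h5
        norm_num at h5
    rw [h3, h2]

/-- the condition on the product, if all the numbers of primes are even -/
theorem hgV {s : Fin 3 → ℕ} {a : ℕ → Ideal (𝓞 F) → ℤ}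
    (hg : ∀ p ∈ insert 2 (∏ j, s j).primeFactors,
      Even (primesOver (span {(p : ℤ)}) (𝓞 F)).ncard) :
    ∀ w : ℕ → ℤ, (∀ p ∈ insert 2 (∏ j, s j).primeFactors, (w p = 1 ∨ w p = -1) ∧
      ∀ Q ∈ primesOver (span {(p : ℤ)}) (𝓞 F), w p = a p Q) →
      ∏ p ∈ insert 2 (∏ j, s j).primeFactors,
        w p ^ (primesOver (span {(p : ℤ)}) (𝓞 F)).ncard = 1 := by
  intro w hw
  refine prod_eq_one fun p hp => ?_
  rcases (hw p hp).1 with h | h
  · rw [h, one_pow]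
  · rw [h, (hg p hp).neg_one_pow]

/-- the condition on the product, for the quadratic fields -/
theorem hgQ {τ : ℕ} {s : Fin 3 → ℕ} (hA : AdT τ) (hD : DP s)
    (hc : Nat.Coprime τ (∏ j, s j))
    {q q' : ℕ} (hq : q.Prime) (hq' : q'.Prime) (hq8 : q % 8 = 1) (hq8' : q' % 8 = 1) (hne : q ≠ q')
    (hnq : ∀ p ∈ insert 2 (∏ j, s j).primeFactors, p ≠ q ∧ p ≠ q')
    (hJ : jacobiSym ((∏ j, s j : ℕ) : ℤ) q = 1) (hJ' : jacobiSym ((∏ j, s j : ℕ) : ℤ) q' = 1)
    [IsGalois ℚ F] (h2 : Module.finrank ℚ F = 2) {x : F} (hx : x ^ 2 = ((q * q' : ℕ) : F)) :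
    ∀ w : ℕ → ℤ, (∀ p ∈ insert 2 (∏ j, s j).primeFactors, (w p = 1 ∨ w p = -1) ∧
      ∀ Q ∈ primesOver (span {(p : ℤ)}) (𝓞 F),
        w p = -aP ((Vm ((τ : ℤ) * s 1) ((τ : ℤ) * s 2)).map (Int.castRingHom (𝓞 F))) Q) →
      ∏ p ∈ insert 2 (∏ j, s j).primeFactors,
        w p ^ (primesOver (span {(p : ℤ)}) (𝓞 F)).ncard = 1 := by
  classical
  intro w hw
  have hτ8 : τ % 8 = 1 := Pool.Agent.Y858.QK.mod8 hA.sqf hA.m8
  have hsq : ¬ IsSquare (((q * q' : ℕ) : ℤ) : ℚ) := by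
    rintro h
    rw [Int.cast_natCast, Rat.isSquare_natCast_iff] at h
    obtain ⟨r, hr⟩ := h
    have h1 : q ∣ r * r := by
      rw [← hr]
      exact dvd_mul_right _ _
    have h3 : q ∣ r := by
      rcases hq.dvd_mul.1 h1 with h | h <;> exact h
    obtain ⟨t, rfl⟩ := h3
    have h4 : q' = q * (t * t) := by
      have : q * q' = q * (q * (t * t)) := by rw [hr]; ring
      exact Nat.eq_of_mul_eq_mul_left hq.pos this
    have h5 : q ∣ q' := ⟨t * t, h4⟩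
    exact hne ((Nat.prime_dvd_prime_iff_eq hq hq').1 h5)
  have hx' : x ^ 2 = (((q * q' : ℕ) : ℤ) : F) := by
    rw [hx, Int.cast_natCast]
  have h8 : ((q * q' : ℕ) : ℤ) % 8 = 1 := by
    have : (q * q') % 8 = 1 := by rw [Nat.mul_mod, hq8, hq8']
    omega
  have hrec : jacobiSym ((q * q' : ℕ) : ℤ) (∏ j, s j) = 1 := jac_recip hq8 hq8' hD.odd hJ hJ'
  have hpf : jacobiSym ((q * q' : ℕ) : ℤ) (∏ j, s j) =
      ∏ p ∈ (∏ j, s j).primeFactors, jacobiSym ((q * q' : ℕ) : ℤ) p := by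
    conv_lhs => rw [← Nat.prod_primeFactors_of_squarefree hD.sq]
    exact jac_prod _ _ _ fun p hp => (Nat.prime_of_mem_primeFactors hp).ne_zero
  have hm2 : Module.finrank ℚ F = 2 ^ 1 := by rw [h2, pow_one]
  rw [prod_insert hD.two]
  have htwo : w 2 ^ (primesOver (span {((2 : ℕ) : ℤ)}) (𝓞 F)).ncard = 1 := by
    have h3 := Pool.Agent.Y427.QKE.two_case F x _ hx' hsq h8
    have h4 := Pool.Agent.Y427.QKE.even_pr F hm2 Nat.prime_two h3
    rcases (hw 2 (mem_insert_self _ _)).1 with h | h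
    · rw [h, one_pow]
    · rw [h, h4.neg_one_pow]
  rw [htwo, one_mul, ← hrec, hpf]
  refine prod_congr rfl fun p hp => ?_
  have hpp := Nat.prime_of_mem_primeFactors hp
  have hpm := mem_insert_of_mem (a := p) (b := 2) hp
  have : Fact p.Prime := ⟨hpp⟩
  have hp2 := hD.pne hp
  have hpD : ¬ p ∣ q * q' := by
    intro h
    rcases hpp.dvd_mul.1 h with h | h
    · exact (hnq p hpm).1 ((Nat.prime_dvd_prime_iff_eq hpp hq).1 h)
    · exact (hnq p hpm).2 ((Nat.prime_dvd_prime_iff_eq hpp hq').1 h)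
  have h0 : ((((q * q' : ℕ) : ℤ)) : ZMod p) ≠ 0 := by
    intro h
    rw [Int.cast_natCast, ZMod.natCast_eq_zero_iff] at h
    exact hpD h
  rcases jacobiSym.trichotomy ((q * q' : ℕ) : ℤ) p with h | h | h
  · exfalso
    rw [← jacobiSym.legendreSym.to_jacobiSym] at h
    exact h0 ((legendreSym.eq_zero_iff p _).1 h)
  · rw [h]
    have hsqp : IsSquare ((((q * q' : ℕ) : ℤ)) : ZMod p) := by
      rw [← jacobiSym.legendreSym.to_jacobiSym] at h
      exact (legendreSym.eq_one_iff p h0).1 h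
    have h3 := Pool.Agent.Y427.QKE.odd_case F x _ hx' hsq hpp hp2 h0 hsqp
    have h4 := Pool.Agent.Y427.QKE.even_pr F hm2 hpp h3
    rcases (hw p hpm).1 with h | h
    · rw [h, one_pow]
    · rw [h, h4.neg_one_pow]
  · rw [h]
    obtain ⟨h3, h4⟩ := quad_inert F h2 hx hpp hp2 h
    obtain ⟨Q, hQ⟩ := Set.ncard_eq_one.1 h3
    have hQm : Q ∈ primesOver (span {(p : ℤ)}) (𝓞 F) := by
      rw [hQ]
      rfl
    rw [h3, pow_one, (hw p hpm).2 Q hQm, aP_inert F hτ8 hD hc hp hQm (h4 Q hQm)]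

end

end Pool.Agent.K3h18.PX
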