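import Pool.Agent.K3h18.PX.Rank
import Pool.Agent.K3h18.PV.Quad

/-!
# The root numbers over all number fields
-/

set_option autoImplicit false
set_option linter.style.haveILetI false
set_option linter.unusedSectionVars false

namespace Pool.Agent.K3h18.PX

open Finset NumberField Ideal Pool.Agent.Y667.PA Pool.Agent.Y667.OG Pool.Agent.Y285.RP
  Pool.Agent.Y667.QK Pool.Agent.Y667.QK.EV Pool.Agent.Y837.QKE

/-- the exponent of the root number over `K` -/
noncomputable def ee (K : Type) [Field K] [NumberField K] (S : Finset ℕ) (e : ℕ → ℤ) : ℕ :=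
  Nat.card (InfinitePlace K) + ∑ p ∈ S, (Sq p (e p) (𝓞 K)).ncard

/-- the curve -/
def Ec (c : ℤ × ℤ) : WeierstrassCurve ℚ := ⟨0, 0, 0, (c.1 : ℚ), (c.2 : ℚ)⟩

/-- the condition on `S` and `e` -/
def Ok (S : Finset ℕ) (e : ℕ → ℤ) : Prop :=
  ∀ p ∈ S, p.Prime ∧ (p = 2 ∧ e p = 1 ∨ p ≠ 2 ∧ ¬ (p : ℤ) ∣ e p)

theorem Sq_two {K : Type} [Field K] [NumberField K] (p : ℕ) : Sq p 1 (𝓞 K) =
    primesOver (span {(p : ℤ)}) (𝓞 K) := by
  ext P
  constructor
  · exact fun h => h.1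
  · intro h
    refine ⟨h, 1, ?_⟩
    rw [Int.cast_one, one_pow, sub_self]
    exact P.zero_mem

theorem Sq_fin (K : Type) [Field K] [NumberField K] {p : ℕ} (hp : p.Prime) (c : ℤ) :
    (Sq p c (𝓞 K)).Finite := (fin_primes K hp).subset fun _ h => h.1

/-- parity of the exponent -/
theorem par_ee (k K M L : Type) [Field k] [NumberField k] [Field K] [NumberField K]
    [Field M] [NumberField M] [Field L] [NumberField L]
    [Algebra k K] [Algebra K L] [Algebra k L] [IsScalarTower k K L]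
    [Algebra k M] [Algebra M L] [IsScalarTower k M L] [IsGalois K L] [IsGalois M L]
    (h : PP (gal k K L) (gal k M L)) {S : Finset ℕ} {e : ℕ → ℤ} (hS : Ok S e) :
    Even (ee K S e + ee M S e) := by
  have h1 := par_inf k K M L h
  have h2 : Even (∑ p ∈ S, ((Sq p (e p) (𝓞 K)).ncard + (Sq p (e p) (𝓞 M)).ncard)) := by
    refine even_sum _ fun p hp => ?_
    obtain ⟨hpp, h3 | h3⟩ := hS p hp
    · rw [h3.2, Sq_two, Sq_two]
      exact par_primes k K M L h hpp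
    · exact par_Sq k K M L h hpp h3.1 h3.2
  rw [sum_add_distrib] at h2
  have h3 : ee K S e + ee M S e = (Nat.card (InfinitePlace K) + Nat.card (InfinitePlace M)) +
      (∑ p ∈ S, (Sq p (e p) (𝓞 K)).ncard + ∑ p ∈ S, (Sq p (e p) (𝓞 M)).ncard) := by
    unfold ee
    ring
  rw [h3]
  exact h1.add h2

open Classical in
/-- the local root numbers at the primes of multiplicative reduction -/
theorem loc {τ : ℕ} {s : Fin 3 → ℕ} (hA : AdT τ) (h : DP s) (hcop : Nat.Coprime τ (∏ j, s j)) :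
    ∃ e : ℕ → ℤ, Ok (insert 2 (∏ j, s j).primeFactors) e ∧
    ∀ (K : Type) [Field K] [NumberField K], ∀ p ∈ insert 2 (∏ j, s j).primeFactors,
      ∀ P ∈ primesOver (span {(p : ℤ)}) (𝓞 K),
        -aP ((Vm ((τ : ℤ) * s 1) ((τ : ℤ) * s 2)).map (Int.castRingHom (𝓞 K))) P =
          if P ∈ Sq p (e p) (𝓞 K) then -1 else 1 := by
  have hτ8 : τ % 8 = 1 := Pool.Agent.Y858.QK.mod8 hA.sqf hA.m8
  have m8' : (s 1 : ℤ) % 8 = 1 := by have := h.m1; omega
  have hτ8' : (τ : ℤ) % 8 = 1 := by omega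
  have m8 : ((τ : ℤ) * s 1) % 8 = 1 := by rw [Int.mul_emod, hτ8', m8']; norm_num
  have hex : ∀ p : ℕ, ∃ n : ℤ, p ∈ (∏ j, s j).primeFactors →
      ∀ (F : Type) [Field F] [Fintype F] [DecidableEq F] [CharP F p],
      aF F (Vm ((τ : ℤ) * s 1) ((τ : ℤ) * s 2)) = quadraticChar F (n : F) := by
    intro p
    by_cases hp : p ∈ (∏ j, s j).primeFactors
    · obtain ⟨n, hn⟩ := Pool.Agent.K3h18.PV.aF_int hτ8 h hp
      exact ⟨n, fun _ => hn⟩
    · exact ⟨0, fun h => absurd h hp⟩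
  choose n hn using hex
  refine ⟨fun p => if p = 2 then 1 else n p, ?_, ?_⟩
  · intro p hp
    rcases mem_insert.1 hp with rfl | hp'
    · exact ⟨Nat.prime_two, Or.inl ⟨rfl, if_pos rfl⟩⟩
    · have hpp := Nat.prime_of_mem_primeFactors hp'
      have hp2 := h.pne hp'
      have : Fact p.Prime := ⟨hpp⟩
      refine ⟨hpp, Or.inr ⟨hp2, ?_⟩⟩
      simp only [if_neg hp2]
      intro hd
      have h1 := hn p hp' (ZMod p)
      have h2 : ((n p : ℤ) : ZMod p) = 0 := (ZMod.intCast_zmod_eq_zero_iff_dvd _ _).mpr hd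
      rw [h2, quadraticChar_zero] at h1
      rcases aF_pm hτ8 h hcop hp (ZMod p) with h3 | h3 <;> rw [h3] at h1 <;> norm_num at h1
  · intro K _ _ p hp P hP
    have hpp : p.Prime := by
      rcases mem_insert.1 hp with rfl | hp
      · exact Nat.prime_two
      · exact Nat.prime_of_mem_primeFactors hp
    have hPm : P.IsMaximal := hP.1.isMaximal (Pool.Agent.Y667.OG.over_ne hpp hP)
    letI : Field (𝓞 K ⧸ P) := Ideal.Quotient.field P
    have fK : Finite (𝓞 K ⧸ P) := by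
      apply Nat.finite_of_card_ne_zero
      rw [card_quot P hP.1 (Pool.Agent.Y667.OG.over_ne hpp hP), below_eq hpp hP]
      exact pow_ne_zero _ hpp.ne_zero
    letI : Fintype (𝓞 K ⧸ P) := Fintype.ofFinite _
    have hch : CharP (𝓞 K ⧸ P) p := by
      have := charP_quot P
      rwa [below_eq hpp hP] at this
    rw [aP_eq]
    rcases mem_insert.1 hp with rfl | hp'
    · rw [aF_two m8, ap_two m8]
      simp only [if_pos]
      rw [Sq_two, if_pos hP]
    · have hp2 := h.pne hp'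
      simp only [if_neg hp2]
      rw [hn p hp' (𝓞 K ⧸ P)]
      have h1 : P ∈ Sq p (n p) (𝓞 K) ↔ IsSquare ((n p : ℤ) : 𝓞 K ⧸ P) := by
        constructor
        · rintro ⟨-, x, hx⟩
          refine ⟨Ideal.Quotient.mk P x, ?_⟩
          have h2 := (Ideal.Quotient.eq (I := P)).mpr hx
          rw [map_pow, map_intCast] at h2
          rw [← h2, sq]
        · rintro ⟨y, hy⟩
          obtain ⟨x, rfl⟩ := Ideal.Quotient.mk_surjective y
          refine ⟨hP, x, ?_⟩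
          rw [← Ideal.Quotient.eq, map_pow, map_intCast, hy, sq]
      have h0 : ((n p : ℤ) : 𝓞 K ⧸ P) ≠ 0 := by
        intro h2
        have h3 := hn p hp' (𝓞 K ⧸ P)
        rw [h2, quadraticChar_zero] at h3
        rcases aF_pm hτ8 h hcop hp (𝓞 K ⧸ P) with h4 | h4 <;> rw [h4] at h3 <;> norm_num at h3
      by_cases hs : IsSquare ((n p : ℤ) : 𝓞 K ⧸ P)
      · rw [if_pos (h1.mpr hs), (quadraticChar_one_iff_isSquare h0).mpr hs]
      · rw [if_neg (fun h2 => hs (h1.mp h2)), quadraticChar_neg_one_iff_not_isSquare.mpr hs]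
        norm_num

open Classical in
/-- the root number over `K` -/
theorem root_all (hT : St_TAU) {τ : ℕ} {s : Fin 3 → ℕ} (hA : AdT τ) (h : DP s)
    (hcop : Nat.Coprime τ (∏ j, s j)) {k : ℤ} (hk : (s 0 : ℤ) + s 1 = 3 * k) {e : ℕ → ℤ}
    (he : ∀ (K : Type) [Field K] [NumberField K], ∀ p ∈ insert 2 (∏ j, s j).primeFactors,
      ∀ P ∈ primesOver (span {(p : ℤ)}) (𝓞 K),
        -aP ((Vm ((τ : ℤ) * s 1) ((τ : ℤ) * s 2)).map (Int.castRingHom (𝓞 K))) P =
          if P ∈ Sq p (e p) (𝓞 K) then -1 else 1) (K : Type) [Field K] [NumberField K] :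
    RootNumberK ((⟨0, 0, 0, ((cc ((τ : ℤ) * s 0) ((τ : ℤ) * s 1) ((τ : ℤ) * k)).1 : ℚ),
      ((cc ((τ : ℤ) * s 0) ((τ : ℤ) * s 1) ((τ : ℤ) * k)).2 : ℚ)⟩ : WeierstrassCurve ℚ).map
        (algebraMap ℚ K)) ((-1) ^ ee K (insert 2 (∏ j, s j).primeFactors) e) := by
  have hτ8 : τ % 8 = 1 := Pool.Agent.Y858.QK.mod8 hA.sqf hA.m8
  have m8' : (s 1 : ℤ) % 8 = 1 := by have := h.m1; omega
  have hτ8' : (τ : ℤ) % 8 = 1 := by omega
  have m8 : ((τ : ℤ) * s 1) % 8 = 1 := by rw [Int.mul_emod, hτ8', m8']; norm_num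
  have hb : ((τ : ℤ) * s 1) % 4 = 1 := by omega
  have hb0 : (s 1 : ℤ) % 4 = 1 := by omega
  have e0 : ((τ : ℤ) * s 1) + 32 * ((τ : ℤ) * s 2) = τ * s 0 := by
    rw [h.a_eq]; ring
  have hm : ModelOf ⟨0, 0, 0, ((cc ((τ : ℤ) * s 0) ((τ : ℤ) * s 1) ((τ : ℤ) * k)).1 : ℚ),
      ((cc ((τ : ℤ) * s 0) ((τ : ℤ) * s 1) ((τ : ℤ) * k)).2 : ℚ)⟩
      (Vm ((τ : ℤ) * s 1) ((τ : ℤ) * s 2)) := by
    have := cc_model (b := (τ : ℤ) * s 1) (c := (τ : ℤ) * s 2) (k := τ * k) hb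
      (by rw [e0]; linear_combination (τ : ℤ) * hk)
    rw [e0] at this
    exact this
  have hmK := model_map (K := K) hm
  have hD : (Vm ((τ : ℤ) * s 1) ((τ : ℤ) * s 2)).Δ = τ ^ 6 * (Vm (s 1) (s 2)).Δ := by
    rw [Vm_disc hb, Vm_disc hb0]
    ring
  have hc4 : (Vm ((τ : ℤ) * s 1) ((τ : ℤ) * s 2)).c₄ = τ ^ 2 * (Vm (s 1) (s 2)).c₄ := by
    rw [Vm_c4 hb, Vm_c4 hb0]
    ring
  have hd0 : (Vm (s 1) (s 2)).Δ ≠ 0 := h.semi.1
  have hpr : ∀ p : ℕ, p.Prime → ((p : ℤ) ∣ (Vm (s 1) (s 2)).Δ ↔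
      p ∈ insert 2 (∏ j, s j).primeFactors) := by
    intro p hp
    rw [← h.primes, Nat.mem_primeFactors]
    exact ⟨fun h => ⟨hp, Int.natCast_dvd.1 h, Int.natAbs_ne_zero.2 hd0⟩,
      fun h => Int.natCast_dvd.2 h.2.1⟩
  have hne : ∀ p : ℕ, p.Prime → ¬ p ∣ τ → ∀ n : ℕ, ∀ x : ℤ, (p : ℤ) ∣ (τ : ℤ) ^ n * x →
      (p : ℤ) ∣ x := by
    intro p hp hpt n x hx
    rcases (Nat.prime_iff_prime_int.1 hp).dvd_or_dvd hx with h | h
    · exact absurd (Int.natCast_dvd_natCast.1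
        ((Nat.prime_iff_prime_int.1 hp).dvd_of_dvd_pow h)) hpt
    · exact h
  have hTK := hT τ s hA h hcop k hk K
  have heK := he K
  obtain ⟨S, hSdef⟩ : ∃ S, S = insert 2 (∏ j, s j).primeFactors := ⟨_, rfl⟩
  rw [← hSdef] at heK hpr ⊢
  have hSp : ∀ p ∈ S, p.Prime := by
    intro p hp
    rw [hSdef, mem_insert] at hp
    rcases hp with rfl | hp
    · exact Nat.prime_two
    · exact Nat.prime_of_mem_primeFactors hp
  have hSτ : ∀ p ∈ S, ¬ p ∣ τ := by
    intro p hp h1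
    have hpp := hSp p hp
    rw [hSdef] at hp
    rcases mem_insert.1 hp with rfl | hp
    · omega
    · have := Nat.dvd_gcd h1 (Nat.dvd_of_mem_primeFactors hp)
      rw [hcop] at this
      exact hpp.one_lt.ne' (Nat.dvd_one.1 this)
  obtain ⟨T, hTs⟩ : ∃ T : ℕ → Finset (Ideal (𝓞 K)), ∀ p ∈ S,
      (T p : Set (Ideal (𝓞 K))) = primesOver (span {(p : ℤ)}) (𝓞 K) := by
    refine ⟨fun p => if h : p ∈ S then (finite_over (K := K) p (hSp p h)).toFinset else ∅,
      fun p hp => ?_⟩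
    simp only [dif_pos hp, Set.Finite.coe_toFinset]
  have hmem : ∀ p ∈ S, ∀ P, P ∈ T p ↔ P ∈ primesOver (span {(p : ℤ)}) (𝓞 K) := by
    intro p hp P
    rw [← hTs p hp, mem_coe]
  refine ⟨fun P => if below P ∈ S then (if P ∈ Sq (below P) (e (below P)) (𝓞 K) then -1 else 1)
    else 1, ?_, S.biUnion T, ?_, ?_, ?_⟩
  · intro P hP1 hP2
    by_cases hS : below P ∈ S
    · simp only [if_pos hS]
      have hP := below_mem P hP1
      have hpp := hSp _ hS
      refine Or.inr (Or.inl ⟨_, hmK, ?_, ?_, ?_⟩)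
      · rw [WeierstrassCurve.map_Δ, int_mem, hD]
        exact ((hpr _ hpp).2 hS).mul_left _
      · rw [WeierstrassCurve.map_c₄, int_mem, hc4]
        intro hd
        exact h.semi.2 _ hpp ((hpr _ hpp).2 hS) (hne _ hpp (hSτ _ hS) 2 _ hd)
      · exact (heK _ hS P hP).symm
    · simp only [if_neg hS]
      by_cases h2 : below P ∣ τ
      · exact hTK P hP1 hP2 h2
      · have hpp := below_prime P hP1 hP2
        refine Or.inl ⟨_, hmK, ?_, rfl⟩
        rw [WeierstrassCurve.map_Δ, int_mem, hD]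
        intro hd
        exact hS ((hpr _ hpp).1 (hne _ hpp h2 6 _ hd))
  · intro P hP
    obtain ⟨p, hp, hPp⟩ := mem_biUnion.1 hP
    rw [hmem p hp] at hPp
    exact ⟨hPp.1, Pool.Agent.Y667.OG.over_ne (hSp p hp) hPp⟩
  · intro P hP1 hP2 hn
    refine if_neg fun hS' => hn ?_
    exact mem_biUnion.2 ⟨below P, hS', (hmem _ hS' P).2 (below_mem P hP1)⟩
  · unfold ee
    rw [pow_add, prod_biUnion]
    · congr 1
      rw [← prod_pow_eq_pow_sum]
      refine prod_congr rfl fun p hp => ?_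
      have h3 : ∀ P ∈ T p, (if below P ∈ S then (if P ∈ Sq (below P) (e (below P)) (𝓞 K) then
          (-1 : ℤ) else 1) else 1) = if P ∈ Sq p (e p) (𝓞 K) then -1 else 1 := by
        intro P hP
        rw [hmem p hp] at hP
        rw [below_eq (hSp p hp) hP, if_pos hp]
      rw [prod_congr rfl h3, ← prod_filter, prod_const]
      congr 1
      rw [Set.ncard_eq_toFinset_card _ (Sq_fin K (hSp p hp) (e p))]
      congr 1
      ext P
      rw [mem_filter, Set.Finite.mem_toFinset, hmem p hp]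
      exact ⟨fun h => ⟨h.1, h⟩, fun h => h.2⟩
    · intro p hp q hq hpq
      rw [Function.onFun, Finset.disjoint_left]
      intro P hP hQ
      rw [hmem p hp] at hP
      rw [hmem q hq] at hQ
      exact hpq ((below_eq (hSp p hp) hP).symm.trans (below_eq (hSp q hq) hQ))

end Pool.Agent.K3h18.PX
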