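import Pool.Agent.K3h18.PX.Nil
import Pool.Agent.K3h18.PX.Root

/-!
# Extensions of number fields with the same parity
-/

set_option autoImplicit false
set_option linter.style.haveILetI false
set_option linter.unusedSectionVars false

namespace Pool.Agent.K3h18.PX

open NumberField

theorem PP.symm {G : Type} [Group G] {H H' : Subgroup G} (h : PP H H') : PP H' H := by
  intro A _ _ _
  rw [add_comm]
  exact h A

section

variable (k M K : Type) [Field k] [NumberField k] [Field M] [NumberField M] [Field K] [NumberField K]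
  [Algebra k M] [Algebra M K] [Algebra k K] [IsScalarTower k M K]

theorem gal_self : gal k K K = ⊥ := by
  rw [eq_bot_iff]
  rintro _ ⟨σ, rfl⟩
  rw [Subgroup.mem_bot]
  ext x
  exact σ.commutes x

theorem mem_gal {τ : K ≃ₐ[k] K} : τ ∈ gal k M K ↔ ∀ y : M, τ (algebraMap M K y) = algebraMap M K y := by
  constructor
  · rintro ⟨σ, rfl⟩ y
    exact σ.commutes y
  · intro h
    exact ⟨AlgEquiv.ofRingEquiv (f := τ.toRingEquiv) h, by ext x; rfl⟩

/-- `M` is the field fixed by the squares -/
theorem gal_sqs [IsGalois k K] (hM : ∀ x : K, (∃ y : M, algebraMap M K y = x) ↔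
    ∀ σ : K ≃ₐ[k] K, σ (σ x) = x) : gal k M K = sqs (K ≃ₐ[k] K) := by
  have h1 : ∀ x : K, x ∈ IntermediateField.fixedField (sqs (K ≃ₐ[k] K)) ↔
      ∀ σ : K ≃ₐ[k] K, σ (σ x) = x := by
    intro x
    rw [IntermediateField.mem_fixedField_iff]
    constructor
    · intro h σ
      exact h (σ * σ) (sq_mem σ)
    · intro h τ hτ
      have h2 : sqs (K ≃ₐ[k] K) ≤ MulAction.stabilizer (K ≃ₐ[k] K) x := by
        unfold sqs
        rw [Subgroup.closure_le]
        rintro _ ⟨σ, rfl⟩
        exact h σ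
      exact h2 hτ
  rw [← IntermediateField.fixingSubgroup_fixedField (sqs (K ≃ₐ[k] K))]
  ext τ
  rw [mem_gal, IntermediateField.mem_fixingSubgroup_iff]
  constructor
  · intro h x hx
    obtain ⟨y, rfl⟩ := (hM x).mpr ((h1 x).mp hx)
    exact h y
  · intro h y
    exact h _ ((h1 _).mpr ((hM _).mp ⟨y, rfl⟩))

theorem gal_top : gal M M K = ⊤ := by
  rw [eq_top_iff]
  intro τ _
  rw [mem_gal]
  exact fun y => τ.commutes y

/-- Galois extensions of odd degree -/
theorem pp_odd [IsGalois M K] (h : Odd (Module.finrank M K)) : PP (gal M M K) (gal M K K) := by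
  rw [gal_self, gal_top]
  apply PP.symm
  apply odd_PP
  rw [IsGalois.card_aut_eq_finrank]
  exact h

/-- the fixed field of the squares -/
theorem pp_sqs [IsGalois k K] (N : Subgroup (K ≃ₐ[k] K)) [N.Normal] (hN : Odd (Nat.card N))
    (h2 : IsPGroup 2 ((K ≃ₐ[k] K) ⧸ N)) (hM : ∀ x : K, (∃ y : M, algebraMap M K y = x) ↔
    ∀ σ : K ≃ₐ[k] K, σ (σ x) = x) : PP (gal k M K) (gal k K K) := by
  rw [gal_self, gal_sqs k M K hM]
  exact (nil_PP _ N hN h2).symm

end

open Classical in
/-- the ranks and the exponents of the root numbers -/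
structure Same (c : ℤ × ℤ) (S : Finset ℕ) (e : ℕ → ℤ) (M K : Type) [Field M] [NumberField M]
    [Field K] [NumberField K] : Prop where
  ex : Even (ee M S e + ee K S e)
  rk : Even (Module.finrank ℤ ((Pool.Agent.W307.RT.Sh c.1 c.2).baseChange M).toAffine.Point +
      Module.finrank ℤ ((Pool.Agent.W307.RT.Sh c.1 c.2).baseChange K).toAffine.Point)

theorem same_of (k M K L : Type) [Field k] [NumberField k] [Field M] [NumberField M]
    [Field K] [NumberField K] [Field L] [NumberField L]
    [Algebra k L] [Algebra k M] [Algebra M L] [Algebra k K] [Algebra K L]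
    [IsScalarTower k M L] [IsScalarTower k K L] [IsGalois k L]
    (h : PP (gal k M L) (gal k K L)) {c : ℤ × ℤ} {S : Finset ℕ} {e : ℕ → ℤ}
    (hD : 4 * c.1 ^ 3 + 27 * c.2 ^ 2 ≠ 0)
    (hT : Pool.Agent.W307.RT.HasT 2 (Pool.Agent.W307.RT.Sh c.1 c.2)) (hS : Ok S e) :
    Same c S e M K := by
  haveI : IsGalois K L := IsGalois.tower_top_of_isGalois k K L
  haveI : IsGalois M L := IsGalois.tower_top_of_isGalois k M L
  exact ⟨par_ee k M K L h hS, par_rank k M K L h hD hT⟩

end Pool.Agent.K3h18.PX
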