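import Pool.Agent.K3h18.PX.Det

/-!
# Groups with a normal 2-complement
-/

set_option autoImplicit false
set_option linter.style.haveILetI false
set_option linter.unusedSectionVars false

namespace Pool.Agent.K3h18.PX

section

/-- the subgroup generated by the squares -/
def sqs (G : Type) [Group G] : Subgroup G := Subgroup.closure {x : G | ∃ g, x = g * g}

theorem sq_mem {G : Type} [Group G] (g : G) : g * g ∈ sqs G := Subgroup.subset_closure ⟨g, rfl⟩

theorem sqs_normal (G : Type) [Group G] : (sqs G).Normal := by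
  refine ⟨fun x hx g => ?_⟩
  have h1 : (sqs G) ≤ (sqs G).comap (MulAut.conj g).toMonoidHom := by
    unfold sqs
    rw [Subgroup.closure_le]
    rintro _ ⟨y, rfl⟩
    refine Subgroup.subset_closure ⟨g * y * g⁻¹, ?_⟩
    change g * (y * y) * g⁻¹ = _
    group
  exact h1 hx

variable {G : Type} [Group G]

theorem exists_z [Finite G] (N U F : Subgroup G) [N.Normal] [U.Normal] [F.Normal] (hN : N ≤ U)
    (h2 : IsPGroup 2 (G ⧸ N)) (hUF : U ≤ F) (hne : U ≠ F) :
    ∃ z ∈ F, z ∉ U ∧ z * z ∈ U ∧ ∀ g : G, g * z * g⁻¹ * z⁻¹ ∈ U := by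
  haveI : Fact (Nat.Prime 2) := ⟨Nat.prime_two⟩
  have hQ : IsPGroup 2 (G ⧸ U) := by
    intro q
    induction q using QuotientGroup.induction_on with
    | H g =>
      obtain ⟨k, hk⟩ := h2 (g : G ⧸ N)
      refine ⟨k, ?_⟩
      rw [← QuotientGroup.mk_pow, QuotientGroup.eq_one_iff] at hk ⊢
      exact hN hk
  let M : Subgroup (G ⧸ U) := F.map (QuotientGroup.mk' U)
  haveI hMn : M.Normal := Subgroup.Normal.map inferInstance _ (QuotientGroup.mk'_surjective U)
  have hMne : Nat.card M ≠ 1 := by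
    intro h
    rw [Subgroup.card_eq_one] at h
    apply hne
    refine le_antisymm hUF fun x hx => ?_
    have h1 : (x : G ⧸ U) ∈ M := ⟨x, hx, rfl⟩
    rw [h, Subgroup.mem_bot, QuotientGroup.eq_one_iff] at h1
    exact h1
  have hdvd : 2 ∣ Nat.card M := ((hQ.to_subgroup M).card_eq_or_dvd).resolve_left hMne
  letI act : MulAction (G ⧸ U) M := MulAction.compHom M (MulAut.conjNormal (H := M))
  have hact : ∀ (q : G ⧸ U) (m : M), ((q • m : M) : G ⧸ U) = q * m * q⁻¹ := fun q m => rfl
  obtain ⟨b, hb, hb1⟩ := hQ.exists_fixed_point_of_prime_dvd_card_of_fixed_point M hdvd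
    (a := (1 : M)) (fun q => Subtype.ext (by
      rw [hact, Subgroup.coe_one, mul_one, mul_inv_cancel]))
  have hbc : ∀ q : G ⧸ U, q * (b : G ⧸ U) * q⁻¹ = b := fun q => by
    have := hb q
    exact congrArg (fun m : M => (m : G ⧸ U)) this
  obtain ⟨k, hk⟩ := (IsPGroup.iff_orderOf.mp hQ) (b : G ⧸ U)
  have hb1' : (b : G ⧸ U) ≠ 1 := fun h => hb1 (Subtype.ext h.symm)
  obtain ⟨j, rfl⟩ : ∃ j, k = j + 1 := by
    rcases k with _ | j
    · rw [pow_zero, orderOf_eq_one_iff] at hk
      exact absurd hk hb1'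
    · exact ⟨j, rfl⟩
  obtain ⟨c, hc⟩ : ∃ c : G ⧸ U, c = (b : G ⧸ U) ^ (2 ^ j) := ⟨_, rfl⟩
  have hc1 : c ≠ 1 := by
    intro h
    rw [hc] at h
    have h3 := orderOf_dvd_of_pow_eq_one h
    rw [hk] at h3
    have h4 := Nat.le_of_dvd (by positivity) h3
    rw [pow_succ] at h4
    have : 0 < 2 ^ j := by positivity
    omega
  have hc2 : c * c = 1 := by
    rw [hc, ← pow_add, ← two_mul, ← pow_succ', ← hk]
    exact pow_orderOf_eq_one _
  have hcc : ∀ q : G ⧸ U, q * c * q⁻¹ * c⁻¹ = 1 := by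
    intro q
    have h3 : q * c * q⁻¹ = c := by
      rw [hc, ← conj_pow, hbc]
    rw [h3, mul_inv_cancel]
  have hcM : c ∈ M := by
    rw [hc]
    exact M.pow_mem b.2 _
  obtain ⟨z, hz, hzc⟩ := hcM
  have hzc' : (z : G ⧸ U) = c := hzc
  refine ⟨z, hz, ?_, ?_, ?_⟩
  · intro h
    rw [← QuotientGroup.eq_one_iff, hzc'] at h
    exact hc1 h
  · rw [← QuotientGroup.eq_one_iff, QuotientGroup.mk_mul, hzc']
    exact hc2
  · intro g
    rw [← QuotientGroup.eq_one_iff]
    have h3 := hcc (g : G ⧸ U)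
    rw [← hzc'] at h3
    exact h3

variable (A : Type) [AddCommGroup A] [DistribMulAction G A]

theorem fx_smul (U : Subgroup G) [hU : U.Normal] (g : G) {a : A} (ha : a ∈ fx A U) :
    g • a ∈ fx A U := by
  intro u hu
  have h1 : g⁻¹ * u * g ∈ U := by
    have := hU.conj_mem u hu g⁻¹
    rwa [inv_inv] at this
  have h2 := ha _ h1
  have h3 : u • g • a = g • (g⁻¹ * u * g) • a := by
    rw [← mul_smul, ← mul_smul]
    congr 1
    group
  rw [h3, h2]

/-- the action on the fixed points of a normal subgroup -/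
def rho (U : Subgroup G) [U.Normal] : G →* (fx A U →ₗ[ℤ] fx A U) where
  toFun g := (lin A g).restrict fun _ ha => fx_smul A U g ha
  map_one' := by
    ext x
    exact one_smul G (x : A)
  map_mul' := by
    intro g h
    ext x
    exact mul_smul g h (x : A)

theorem rho_coe (U : Subgroup G) [U.Normal] (g : G) (x : fx A U) :
    ((rho A U g x : fx A U) : A) = g • (x : A) := rfl

/-- one step -/
theorem step_z [Finite G] [Module.Free ℤ A] [Module.Finite ℤ A] (U : Subgroup G) [U.Normal] (z : G)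
    (hz : z ∈ sqs G) (hz2 : z * z ∈ U) (hzc : ∀ g : G, g * z * g⁻¹ * z⁻¹ ∈ U) :
    Even (Module.finrank ℤ (fx A U) + Module.finrank ℤ (fx A (U ⊔ Subgroup.zpowers z))) := by
  have hc : ∀ (g : G) (x : fx A U), rho A U g (rho A U z x) = rho A U z (rho A U g x) := by
    intro g x
    apply Subtype.ext
    rw [rho_coe, rho_coe, rho_coe, rho_coe]
    have h1 : z⁻¹ * (g * z * g⁻¹ * z⁻¹) * z ∈ U := by
      have := (inferInstance : U.Normal).conj_mem _ (hzc g) z⁻¹
      rwa [inv_inv] at this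
    have h2 := (fx_smul A U g x.2) _ h1
    have h3 : z • (z⁻¹ * (g * z * g⁻¹ * z⁻¹) * z) • g • (x : A) = g • z • (x : A) := by
      rw [← mul_smul, ← mul_smul, ← mul_smul]
      congr 1
      group
    rw [← h3, h2]
  have h2 : ∀ x : fx A U, rho A U z (rho A U z x) = x := by
    intro x
    apply Subtype.ext
    rw [rho_coe, rho_coe, ← mul_smul]
    exact x.2 _ hz2
  have h1 := inv_even (fx A U) (rho A U) z hc h2 hz
  let e : fx A (U ⊔ Subgroup.zpowers z) ≃ₗ[ℤ] LinearMap.ker (LinearMap.id - rho A U z) :=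
    { toFun := fun x => ⟨⟨x.1, fun u hu => x.2 u ((le_sup_left : U ≤ U ⊔ _) hu)⟩, by
        rw [LinearMap.mem_ker, LinearMap.sub_apply, LinearMap.id_apply, sub_eq_zero]
        apply Subtype.ext
        exact (x.2 z ((le_sup_right : Subgroup.zpowers z ≤ U ⊔ _)
          (Subgroup.mem_zpowers z))).symm⟩
      invFun := fun x => ⟨x.1.1, by
        have h3 : z • (x.1.1 : A) = x.1.1 := by
          have h4 := x.2
          rw [LinearMap.mem_ker, LinearMap.sub_apply, LinearMap.id_apply, sub_eq_zero] at h4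
          exact (congrArg Subtype.val h4).symm
        have h4 : U ⊔ Subgroup.zpowers z ≤ MulAction.stabilizer G (x.1.1 : A) := by
          rw [sup_le_iff, Subgroup.zpowers_le]
          exact ⟨fun u hu => x.1.2 u hu, h3⟩
        exact fun u hu => h4 hu⟩
      left_inv := fun x => rfl
      right_inv := fun x => rfl
      map_add' := fun x y => rfl
      map_smul' := fun n x => rfl }
  rw [e.finrank_eq]
  exact h1

theorem chain [Finite G] [Module.Free ℤ A] [Module.Finite ℤ A] (N : Subgroup G) [N.Normal]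
    (h2 : IsPGroup 2 (G ⧸ N)) : ∀ (n : ℕ) (U : Subgroup G), U.Normal → N ≤ U → U ≤ sqs G →
      Nat.card (sqs G) ≤ Nat.card U + n →
      Even (Module.finrank ℤ (fx A U) + Module.finrank ℤ (fx A (sqs G))) := by
  intro n
  induction n with
  | zero =>
    intro U _ _ hU hn
    have h3 : U = sqs G := Subgroup.eq_of_le_of_card_ge hU (by omega)
    rw [h3]
    exact ⟨_, rfl⟩
  | succ n ih =>
    intro U hUn hNU hU hn
    by_cases h3 : U = sqs G
    · rw [h3]
      exact ⟨_, rfl⟩
    haveI := hUn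
    haveI := sqs_normal G
    obtain ⟨z, hz, hzU, hz2, hzc⟩ := exists_z N U (sqs G) hNU h2 hU h3
    have h4 := step_z A U z hz hz2 hzc
    have hlt : U < U ⊔ Subgroup.zpowers z := by
      refine lt_of_le_of_ne le_sup_left fun h => hzU ?_
      rw [h]
      exact (le_sup_right : Subgroup.zpowers z ≤ U ⊔ _) (Subgroup.mem_zpowers z)
    have hcard : Nat.card U < Nat.card (U ⊔ Subgroup.zpowers z : Subgroup G) :=
      Set.Finite.card_lt_card (Set.toFinite _) hlt
    have h5 := ih (U ⊔ Subgroup.zpowers z) (by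
      refine ⟨fun x hx g => ?_⟩
      have h6 : U ⊔ Subgroup.zpowers z ≤ (U ⊔ Subgroup.zpowers z).comap
          (MulAut.conj g).toMonoidHom := by
        rw [sup_le_iff, Subgroup.zpowers_le]
        constructor
        · intro u hu
          exact (le_sup_left : U ≤ U ⊔ _) (hUn.conj_mem u hu g)
        · change g * z * g⁻¹ ∈ U ⊔ Subgroup.zpowers z
          have h7 := (U ⊔ Subgroup.zpowers z).mul_mem ((le_sup_left : U ≤ U ⊔ _) (hzc g))
            ((le_sup_right : Subgroup.zpowers z ≤ U ⊔ _) (Subgroup.mem_zpowers z))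
          rwa [inv_mul_cancel_right] at h7
      exact h6 hx) (hNU.trans le_sup_left) (sup_le hU (by rwa [Subgroup.zpowers_le])) (by omega)
    have h6 : Module.finrank ℤ (fx A U) + Module.finrank ℤ (fx A (sqs G)) +
        2 * Module.finrank ℤ (fx A (U ⊔ Subgroup.zpowers z)) =
        (Module.finrank ℤ (fx A U) + Module.finrank ℤ (fx A (U ⊔ Subgroup.zpowers z))) +
        (Module.finrank ℤ (fx A (U ⊔ Subgroup.zpowers z)) + Module.finrank ℤ (fx A (sqs G))) := by
      ring
    have h7 := h4.add h5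
    rw [← h6] at h7
    exact (Nat.even_add.mp h7).mpr ⟨_, two_mul _⟩

/-- groups with a normal 2-complement -/
theorem nil_PP (G : Type) [Group G] [Finite G] (N : Subgroup G) [N.Normal]
    (hN : Odd (Nat.card N)) (h2 : IsPGroup 2 (G ⧸ N)) : PP (⊥ : Subgroup G) (sqs G) := by
  apply PP_of_free
  intro B _ _ _ _
  have hNs : N ≤ sqs G := by
    intro x hx
    obtain ⟨k, hk⟩ := hN
    have h3 : x ^ Nat.card N = 1 := by
      have := pow_card_eq_one' (x := (⟨x, hx⟩ : N))
      exact congrArg Subtype.val this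
    have h4 : x = x ^ (k + 1) * x ^ (k + 1) := by
      rw [← pow_add]
      have : k + 1 + (k + 1) = Nat.card N + 1 := by omega
      rw [this, pow_succ, h3, one_mul]
    rw [h4]
    exact sq_mem _
  have h3 := chain B N h2 (Nat.card (sqs G)) N inferInstance le_rfl hNs (Nat.le_add_left _ _)
  have h4 := Pool.Agent.Y624.OG.ODDG N B hN
  rw [fx_rank] at h4
  have h5 : fx B (⊥ : Subgroup G) = ⊤ := by
    rw [eq_top_iff]
    intro b _ u hu
    rw [Subgroup.mem_bot.mp hu, one_smul]
  rw [h5, finrank_top]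
  have h6 : Module.finrank ℤ B + Module.finrank ℤ (fx B (sqs G)) +
      2 * Module.finrank ℤ (fx B N) = (Module.finrank ℤ B + Module.finrank ℤ (fx B N)) +
      (Module.finrank ℤ (fx B N) + Module.finrank ℤ (fx B (sqs G))) := by ring
  have h7 := h4.add h3
  rw [← h6] at h7
  exact (Nat.even_add.mp h7).mpr ⟨_, two_mul _⟩

/-- groups of odd order -/
theorem odd_PP (G : Type) [Group G] [Finite G] (hG : Odd (Nat.card G)) :
    PP (⊥ : Subgroup G) (⊤ : Subgroup G) := by
  intro B _ _ _
  have h4 := Pool.Agent.Y624.OG.ODDG G B hG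
  have h5 : fx B (⊥ : Subgroup G) = ⊤ := by
    rw [eq_top_iff]
    intro b _ u hu
    rw [Subgroup.mem_bot.mp hu, one_smul]
  have h6 : FixedPoints.addSubgroup (⊤ : Subgroup G) B = FixedPoints.addSubgroup G B := by
    ext b
    exact ⟨fun h g => h ⟨g, Subgroup.mem_top g⟩, fun h g => h g⟩
  rw [fx_rank, h5, finrank_top, h6]
  exact h4

end

end Pool.Agent.K3h18.PX
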