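import Mathlib

/-!
# Pairs of subgroups with the same parity of the invariants of all lattices
-/

set_option autoImplicit false
set_option linter.style.haveILetI false
set_option warn.classDefReducibility false

namespace Pool.Agent.K3h18.PX

/-- for every finitely generated abelian group `A` with an action of `G` the ranks of the fixed points
of `H` and of `H'` have the same parity -/
def PP {G : Type} [Group G] (H H' : Subgroup G) : Prop :=
  ∀ (A : Type) [AddCommGroup A] [Module.Finite ℤ A] [DistribMulAction G A],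
    Even (Module.finrank ℤ (FixedPoints.addSubgroup H A) +
      Module.finrank ℤ (FixedPoints.addSubgroup H' A))

section

variable {G Ω Υ : Type} [Group G] [MulAction G Ω]

/-- the action on the functions on a stable subset -/
def actF (X : Set Ω) (hst : ∀ (g : G), ∀ x ∈ X, g • x ∈ X) : DistribMulAction G (X → ℤ) where
  smul g f := fun x => f ⟨g⁻¹ • (x : Ω), hst g⁻¹ x x.2⟩
  one_smul f := by
    funext x
    change f _ = f x
    congr 1
    apply Subtype.ext
    change (1 : G)⁻¹ • (x : Ω) = x
    rw [inv_one, one_smul]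
  mul_smul g h f := by
    funext x
    change f _ = f _
    congr 1
    apply Subtype.ext
    change (g * h)⁻¹ • (x : Ω) = h⁻¹ • (g⁻¹ • (x : Ω))
    rw [mul_inv_rev, mul_smul]
  smul_zero g := rfl
  smul_add g f f' := rfl

/-- the subset `Y` is the set of the orbits of `H` on `X` -/
structure Orb (H : Subgroup G) (X : Set Ω) (Y : Set Υ) (F : Ω → Υ) : Prop where
  mt : ∀ x ∈ X, F x ∈ Y
  sj : ∀ y ∈ Y, ∃ x ∈ X, F x = y
  eq : ∀ x ∈ X, ∀ g ∈ H, F (g • x) = F x
  ex : ∀ x ∈ X, ∀ y ∈ X, F x = F y → ∃ g ∈ H, g • x = y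

theorem fix_card (H : Subgroup G) (X : Set Ω) (hX : X.Finite)
    (hst : ∀ (g : G), ∀ x ∈ X, g • x ∈ X) {Y : Set Υ} {F : Ω → Υ} (h : Orb H X Y F) :
    letI := actF X hst
    Module.finrank ℤ (FixedPoints.addSubgroup H (X → ℤ)) = Y.ncard := by
  letI := actF X hst
  have hsm : ∀ (g : G) (f : X → ℤ) (x : X), (g • f) x = f ⟨g⁻¹ • (x : Ω), hst g⁻¹ x x.2⟩ :=
    fun g f x => rfl
  have hYf : Y.Finite := by
    refine (hX.image F).subset ?_
    intro y hy
    obtain ⟨x, hx, rfl⟩ := h.sj y hy
    exact ⟨x, hx, rfl⟩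
  choose r hr1 hr2 using h.sj
  have key : ∀ f : FixedPoints.addSubgroup H (X → ℤ), ∀ x y : X, F x = F y →
      f.1 x = f.1 y := by
    intro f x y hxy
    obtain ⟨g, hg, hgx⟩ := h.ex x x.2 y y.2 hxy
    have h1 := congrFun (f.2 ⟨g, hg⟩) y
    have h2 : (g • f.1) y = f.1 y := h1
    rw [hsm] at h2
    rw [← h2]
    refine congrArg f.1 (Subtype.ext ?_)
    change (x : Ω) = g⁻¹ • (y : Ω)
    rw [← hgx, inv_smul_smul]
  let e : FixedPoints.addSubgroup H (X → ℤ) ≃+ (Y → ℤ) :=
    { toFun := fun f y => f.1 ⟨r y y.2, hr1 y y.2⟩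
      invFun := fun c => ⟨fun x => c ⟨F x, h.mt x x.2⟩, fun g => by
        funext x
        change c _ = c _
        congr 1
        apply Subtype.ext
        change F ((g : G)⁻¹ • (x : Ω)) = F x
        exact h.eq x x.2 _ (H.inv_mem g.2)⟩
      left_inv := by
        intro f
        apply Subtype.ext
        funext x
        change f.1 ⟨r (F x) _, _⟩ = f.1 x
        apply key
        exact hr2 _ _
      right_inv := by
        intro c
        funext y
        change c ⟨F (r y y.2), _⟩ = c y
        congr 1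
        apply Subtype.ext
        exact hr2 _ _
      map_add' := fun f f' => rfl }
  haveI : Fintype Y := hYf.fintype
  rw [e.toIntLinearEquiv.finrank_eq, Module.finrank_fintype_fun_eq_card, ← Nat.card_eq_fintype_card,
    Nat.card_coe_set_eq]

/-- the numbers of the orbits of `H` and of `H'` on a finite set have the same parity -/
theorem pp_count {Υ' : Type} {H H' : Subgroup G} (hp : PP H H') (X : Set Ω) (hX : X.Finite)
    (hst : ∀ (g : G), ∀ x ∈ X, g • x ∈ X) {Y : Set Υ} {F : Ω → Υ} (h : Orb H X Y F)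
    {Y' : Set Υ'} {F' : Ω → Υ'} (h' : Orb H' X Y' F') : Even (Y.ncard + Y'.ncard) := by
  letI := actF X hst
  haveI : Finite X := hX
  rw [← fix_card H X hX hst h, ← fix_card H' X hX hst h']
  exact hp (X → ℤ)

end

end Pool.Agent.K3h18.PX
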