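import Pool.Agent.K3h18.PX.Pair

/-!
# Parity of the numbers of places
-/

set_option autoImplicit false
set_option linter.style.haveILetI false
set_option linter.unusedSectionVars false

namespace Pool.Agent.K3h18.PX

open NumberField Ideal Pointwise

/-- the subgroup `Gal(L/K)` of `Gal(L/k)` -/
def gal (k K L : Type) [Field k] [Field K] [Field L] [Algebra k K] [Algebra K L] [Algebra k L]
    [IsScalarTower k K L] : Subgroup (L ≃ₐ[k] L) :=
  (AlgEquiv.restrictScalarsHom k : (L ≃ₐ[K] L) →* (L ≃ₐ[k] L)).range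

/-- the pairs of a prime over `p` and a coset of a square root of `c`, the empty set if `c` is not
a square -/
def Z (p : ℕ) (c : ℤ) (R : Type) [CommRing R] : Set (Ideal R × Set R) :=
  {z | z.1 ∈ primesOver (span {(p : ℤ)}) R ∧
    ((∃ x : R, x ^ 2 - (c : R) ∈ z.1 ∧ z.2 = {y | y - x ∈ z.1}) ∨
      ((∀ x : R, x ^ 2 - (c : R) ∉ z.1) ∧ z.2 = ∅))}

section

variable (k K L : Type) [Field k] [NumberField k] [Field K] [NumberField K] [Field L] [NumberField L]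
  [Algebra k K] [Algebra K L] [Algebra k L] [IsScalarTower k K L]

theorem orb_inf [IsGalois K L] : Orb (gal k K L) (Set.univ : Set (InfinitePlace L))
    (Set.univ : Set (InfinitePlace K)) (fun w => w.comap (algebraMap K L)) where
  mt _ _ := trivial
  sj y _ := by
    obtain ⟨w, hw⟩ := InfinitePlace.comap_surjective (k := K) (K := L) y
    exact ⟨w, trivial, hw⟩
  eq x _ g hg := by
    obtain ⟨σ, rfl⟩ := hg
    exact (InfinitePlace.mem_orbit_iff.mp ⟨σ, rfl⟩ : x.comap (algebraMap K L) =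
      (σ • x).comap (algebraMap K L)).symm
  ex x _ y _ h := by
    obtain ⟨σ, hσ⟩ := InfinitePlace.exists_smul_eq_of_comap_eq (k := K) h
    exact ⟨_, ⟨σ, rfl⟩, hσ⟩

theorem smul_gal (σ : L ≃ₐ[K] L) (x : 𝓞 L) :
    (AlgEquiv.restrictScalarsHom k σ : L ≃ₐ[k] L) • x = σ • x := rfl

theorem smul_gal_ideal (σ : L ≃ₐ[K] L) (P : Ideal (𝓞 L)) :
    (AlgEquiv.restrictScalarsHom k σ : L ≃ₐ[k] L) • P = σ • P := rfl

theorem smul_gal_set (σ : L ≃ₐ[K] L) (P : Set (𝓞 L)) :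
    (AlgEquiv.restrictScalarsHom k σ : L ≃ₐ[k] L) • P = σ • P := rfl

theorem over_smul {p : ℕ} (g : L ≃ₐ[k] L) {P : Ideal (𝓞 L)}
    (hP : P ∈ primesOver (span {(p : ℤ)}) (𝓞 L)) : g • P ∈ primesOver (span {(p : ℤ)}) (𝓞 L) := by
  have h1 : P.IsPrime := hP.1
  have h2 : P.LiesOver (span {(p : ℤ)}) := hP.2
  exact ⟨h1.smul g, h2.smul g⟩

theorem over_under {p : ℕ} {P : Ideal (𝓞 L)}
    (hP : P ∈ primesOver (span {(p : ℤ)}) (𝓞 L)) :
    P.under (𝓞 K) ∈ primesOver (span {(p : ℤ)}) (𝓞 K) := by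
  have h1 : P.IsPrime := hP.1
  have h2 : P.LiesOver (span {(p : ℤ)}) := hP.2
  exact ⟨inferInstance, LiesOver.tower_bot P (P.under (𝓞 K)) (span {(p : ℤ)})⟩

theorem over_ne {p : ℕ} (hp : p.Prime) {P : Ideal (𝓞 K)}
    (hP : P ∈ primesOver (span {(p : ℤ)}) (𝓞 K)) : P ≠ ⊥ := by
  rintro rfl
  have h2 : (⊥ : Ideal (𝓞 K)).LiesOver (span {(p : ℤ)}) := hP.2
  have h3 := h2.over
  have h4 : (p : ℤ) ∈ (⊥ : Ideal (𝓞 K)).under ℤ := by
    rw [← h3]
    exact mem_span_singleton_self _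
  rw [under_def, mem_comap, mem_bot] at h4
  rw [eq_intCast, Int.cast_natCast] at h4
  exact hp.ne_zero (by exact_mod_cast h4)

theorem exists_over {p : ℕ} (hp : p.Prime) {P : Ideal (𝓞 K)}
    (hP : P ∈ primesOver (span {(p : ℤ)}) (𝓞 K)) :
    ∃ Q ∈ primesOver (span {(p : ℤ)}) (𝓞 L), Q.under (𝓞 K) = P := by
  have h1 : P.IsPrime := hP.1
  have h2 : P.LiesOver (span {(p : ℤ)}) := hP.2
  have h3 : P.IsMaximal := h1.isMaximal (over_ne K hp hP)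
  obtain ⟨Q, hQ1, hQ2⟩ := exists_maximal_ideal_liesOver_of_isIntegral (S := 𝓞 L) P
  exact ⟨Q, ⟨hQ1.isPrime, LiesOver.trans Q P (span {(p : ℤ)})⟩, hQ2.over.symm⟩

theorem orb_primes [IsGalois K L] {p : ℕ} (hp : p.Prime) : Orb (gal k K L)
    (primesOver (span {(p : ℤ)}) (𝓞 L)) (primesOver (span {(p : ℤ)}) (𝓞 K))
    (fun P => P.under (𝓞 K)) where
  mt P hP := over_under K L hP
  sj P hP := exists_over K L hp hP
  eq P hP g hg := by
    obtain ⟨σ, rfl⟩ := hg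
    exact under_smul (𝓞 K) P σ
  ex P hP Q hQ h := by
    have h1 : P.IsPrime := hP.1
    have h2 : Q.IsPrime := hQ.1
    obtain ⟨σ, hσ⟩ := Algebra.IsInvariant.exists_smul_of_under_eq (𝓞 K) (𝓞 L) (L ≃ₐ[K] L) P Q h
    exact ⟨_, ⟨σ, rfl⟩, hσ.symm⟩

/-- the coset of `x` -/
theorem smul_coset (g : L ≃ₐ[k] L) (P : Ideal (𝓞 L)) (x : 𝓞 L) :
    g • {y : 𝓞 L | y - x ∈ P} = {y : 𝓞 L | y - g • x ∈ g • P} := by
  ext y
  rw [Set.mem_smul_set_iff_inv_smul_mem, Set.mem_ofPred_eq, Set.mem_ofPred_eq,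
    mem_pointwise_smul_iff_inv_smul_mem, smul_sub, inv_smul_smul]

theorem sq_smul {c : ℤ} (g : L ≃ₐ[k] L) (P : Ideal (𝓞 L)) (x : 𝓞 L) :
    (g • x) ^ 2 - (c : 𝓞 L) ∈ g • P ↔ x ^ 2 - (c : 𝓞 L) ∈ P := by
  have h1 : (g • x) ^ 2 - (c : 𝓞 L) = g • (x ^ 2 - (c : 𝓞 L)) := by
    rw [smul_sub, smul_pow']
    congr 1
    have := map_intCast (MulSemiringAction.toRingHom (L ≃ₐ[k] L) (𝓞 L) g) c
    exact this.symm
  rw [h1, smul_mem_pointwise_smul_iff]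

theorem Z_stable {p : ℕ} {c : ℤ} (g : L ≃ₐ[k] L) : ∀ z ∈ Z p c (𝓞 L), g • z ∈ Z p c (𝓞 L) := by
  rintro ⟨P, C⟩ ⟨h1, h2⟩
  refine ⟨over_smul k L g h1, ?_⟩
  rcases h2 with ⟨x, h3, h4⟩ | ⟨h3, h4⟩
  · left
    refine ⟨g • x, (sq_smul k L g P x).mpr h3, ?_⟩
    change g • C = _
    change C = _ at h4
    rw [h4]
    exact smul_coset k L g P x
  · right
    refine ⟨fun x hx => h3 (g⁻¹ • x) ?_, ?_⟩
    · have h5 := (sq_smul k L (c := c) g P (g⁻¹ • x))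
      rw [smul_inv_smul] at h5
      exact h5.mp hx
    · change g • C = _
      change C = _ at h4
      rw [h4, Set.smul_set_empty]

/-- the map from `L` to `K` -/
def res (z : Ideal (𝓞 L) × Set (𝓞 L)) : Ideal (𝓞 K) × Set (𝓞 K) :=
  (z.1.under (𝓞 K), (algebraMap (𝓞 K) (𝓞 L)) ⁻¹' z.2)

theorem alg_sq {c : ℤ} (P : Ideal (𝓞 L)) (a : 𝓞 K) :
    a ^ 2 - (c : 𝓞 K) ∈ P.under (𝓞 K) ↔ (algebraMap (𝓞 K) (𝓞 L) a) ^ 2 - (c : 𝓞 L) ∈ P := by
  rw [under_def, mem_comap, map_sub, map_pow, map_intCast]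

theorem res_eq [IsGalois K L] (σ : L ≃ₐ[K] L) (z : Ideal (𝓞 L) × Set (𝓞 L)) : res K L (σ • z) = res K L z := by
  refine Prod.ext ?_ ?_
  · exact under_smul (𝓞 K) z.1 σ
  · ext a
    change algebraMap (𝓞 K) (𝓞 L) a ∈ σ • z.2 ↔ algebraMap (𝓞 K) (𝓞 L) a ∈ z.2
    rw [Set.mem_smul_set_iff_inv_smul_mem, smul_algebraMap]

theorem res_mem {p : ℕ} {c : ℤ} : ∀ z ∈ Z p c (𝓞 L), res K L z ∈ Z p c (𝓞 K) := by
  rintro ⟨P, C⟩ ⟨h1, h2⟩
  have hP : P.IsPrime := h1.1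
  refine ⟨over_under K L h1, ?_⟩
  rcases h2 with ⟨x, h3, h4⟩ | ⟨h3, h4⟩
  · change x ^ 2 - (c : 𝓞 L) ∈ P at h3
    have h4' : C = {y | y - x ∈ P} := h4
    clear h4
    subst h4'
    by_cases hne : ∃ a : 𝓞 K, algebraMap (𝓞 K) (𝓞 L) a - x ∈ P
    · left
      obtain ⟨a, ha⟩ := hne
      refine ⟨a, ?_, ?_⟩
      · change a ^ 2 - (c : 𝓞 K) ∈ P.under (𝓞 K)
        rw [alg_sq]
        have h5 : (algebraMap (𝓞 K) (𝓞 L) a) ^ 2 - (c : 𝓞 L) =
            (algebraMap (𝓞 K) (𝓞 L) a - x) * (algebraMap (𝓞 K) (𝓞 L) a + x) +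
              (x ^ 2 - (c : 𝓞 L)) := by ring
        rw [h5]
        exact P.add_mem (P.mul_mem_right _ ha) h3
      · ext y
        change algebraMap (𝓞 K) (𝓞 L) y - x ∈ P ↔ y - a ∈ P.under (𝓞 K)
        rw [under_def, mem_comap, map_sub]
        constructor
        · intro h
          have := P.sub_mem h ha
          rwa [sub_sub_sub_cancel_right] at this
        · intro h
          have := P.add_mem h ha
          rwa [sub_add_sub_cancel] at this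
    · right
      refine ⟨fun a ha => ?_, ?_⟩
      · change a ^ 2 - (c : 𝓞 K) ∈ P.under (𝓞 K) at ha
        rw [alg_sq] at ha
        have h5 : (algebraMap (𝓞 K) (𝓞 L) a - x) * (algebraMap (𝓞 K) (𝓞 L) (-a) - x) ∈ P := by
          have h6 : (algebraMap (𝓞 K) (𝓞 L) a - x) * (algebraMap (𝓞 K) (𝓞 L) (-a) - x) =
              (x ^ 2 - (c : 𝓞 L)) - ((algebraMap (𝓞 K) (𝓞 L) a) ^ 2 - (c : 𝓞 L)) := by
            rw [map_neg]
            ring
          rw [h6]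
          exact P.sub_mem h3 ha
        rcases hP.mem_or_mem h5 with h6 | h6
        · exact hne ⟨a, h6⟩
        · exact hne ⟨-a, h6⟩
      · ext y
        rw [Set.mem_empty_iff_false, iff_false]
        exact fun h => hne ⟨y, h⟩
  · have h4' : C = ∅ := h4
    clear h4
    subst h4'
    right
    refine ⟨fun a ha => ?_, ?_⟩
    · change a ^ 2 - (c : 𝓞 K) ∈ P.under (𝓞 K) at ha
      rw [alg_sq] at ha
      exact h3 _ ha
    · rfl

/-- an element of the decomposition group which changes the sign of a square root -/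
theorem exists_neg [IsGalois K L] {p : ℕ} (hp : p.Prime) {c : ℤ} {P : Ideal (𝓞 L)}
    (hP : P ∈ primesOver (span {(p : ℤ)}) (𝓞 L)) {x : 𝓞 L} (hx : x ^ 2 - (c : 𝓞 L) ∈ P)
    (hne : ∀ a : 𝓞 K, algebraMap (𝓞 K) (𝓞 L) a - x ∉ P) :
    ∃ σ : L ≃ₐ[K] L, σ • P = P ∧ σ • x + x ∈ P := by
  have h1 : P.IsPrime := hP.1
  have hQ := over_under K L hP
  have h2 : (P.under (𝓞 K)).IsPrime := hQ.1
  have hPm : P.IsMaximal := h1.isMaximal (over_ne L hp hP)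
  have hQm : (P.under (𝓞 K)).IsMaximal := h2.isMaximal (over_ne K hp hQ)
  letI : Field (𝓞 L ⧸ P) := Ideal.Quotient.field P
  letI : Field (𝓞 K ⧸ P.under (𝓞 K)) := Ideal.Quotient.field _
  have hfin : Finite (𝓞 L ⧸ P) := Ideal.finiteQuotientOfFreeOfNeBot P (over_ne L hp hP)
  have hgal : IsGalois (𝓞 K ⧸ P.under (𝓞 K)) (𝓞 L ⧸ P) := inferInstance
  have hnot : Ideal.Quotient.mk P x ∉ (⊥ : IntermediateField (𝓞 K ⧸ P.under (𝓞 K)) (𝓞 L ⧸ P)) := by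
    intro h
    rw [IntermediateField.mem_bot] at h
    obtain ⟨b, hb⟩ := h
    obtain ⟨a, rfl⟩ := Ideal.Quotient.mk_surjective b
    apply hne a
    rw [← Ideal.Quotient.eq]
    exact hb
  rw [IsGalois.mem_bot_iff_fixed] at hnot
  push Not at hnot
  obtain ⟨τ, hτ⟩ := hnot
  obtain ⟨σ, hσ⟩ := Ideal.Quotient.stabilizerHom_surjective (L ≃ₐ[K] L) (P.under (𝓞 K)) P τ
  refine ⟨σ, σ.2, ?_⟩
  rw [← hσ, Ideal.Quotient.stabilizerHom_apply] at hτ
  have h3 : (σ : L ≃ₐ[K] L) • x - x ∉ P := by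
    rw [← Ideal.Quotient.eq]
    exact hτ
  have h4 : ((σ : L ≃ₐ[K] L) • x) ^ 2 - (c : 𝓞 L) ∈ P := by
    have h5 := (sq_smul K L (c := c) (σ : L ≃ₐ[K] L) P x).mpr hx
    have h6 : (σ : L ≃ₐ[K] L) • P = P := σ.2
    rwa [h6] at h5
  have h5 : ((σ : L ≃ₐ[K] L) • x - x) * ((σ : L ≃ₐ[K] L) • x + x) ∈ P := by
    have h6 : ((σ : L ≃ₐ[K] L) • x - x) * ((σ : L ≃ₐ[K] L) • x + x) =
        (((σ : L ≃ₐ[K] L) • x) ^ 2 - (c : 𝓞 L)) - (x ^ 2 - (c : 𝓞 L)) := by ring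
    rw [h6]
    exact P.sub_mem h4 hx
  exact (h1.mem_or_mem h5).resolve_left h3

theorem coset_congr {P : Ideal (𝓞 L)} {x y : 𝓞 L} (h : x - y ∈ P) :
    {z : 𝓞 L | z - x ∈ P} = {z : 𝓞 L | z - y ∈ P} := by
  ext z
  constructor
  · intro hz
    have := P.add_mem hz h
    rwa [sub_add_sub_cancel] at this
  · intro hz
    have := P.sub_mem hz h
    rwa [sub_sub_sub_cancel_right] at this

/-- the same prime -/
theorem ex_same [IsGalois K L] {p : ℕ} (hp : p.Prime) {c : ℤ} (P : Ideal (𝓞 L)) (C C' : Set (𝓞 L))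
    (h1 : (P, C) ∈ Z p c (𝓞 L)) (h2 : (P, C') ∈ Z p c (𝓞 L))
    (h : (algebraMap (𝓞 K) (𝓞 L)) ⁻¹' C = (algebraMap (𝓞 K) (𝓞 L)) ⁻¹' C') :
    ∃ σ : L ≃ₐ[K] L, σ • (P, C) = (P, C') := by
  obtain ⟨hP, h1⟩ := h1
  obtain ⟨-, h2⟩ := h2
  change P ∈ _ at hP
  have hPp : P.IsPrime := hP.1
  rcases h1 with ⟨x, h3, h4⟩ | ⟨h3, h4⟩
  · change C = {y | y - x ∈ P} at h4
    change x ^ 2 - (c : 𝓞 L) ∈ P at h3
    rcases h2 with ⟨y, h5, h6⟩ | ⟨h5, -⟩
    · change C' = {z | z - y ∈ P} at h6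
      change y ^ 2 - (c : 𝓞 L) ∈ P at h5
      have h7 : (x - y) * (x + y) ∈ P := by
        have h8 : (x - y) * (x + y) = (x ^ 2 - (c : 𝓞 L)) - (y ^ 2 - (c : 𝓞 L)) := by ring
        rw [h8]
        exact P.sub_mem h3 h5
      rcases hPp.mem_or_mem h7 with h8 | h8
      · refine ⟨1, ?_⟩
        rw [one_smul, h4, h6, coset_congr L h8]
      · by_cases hne : ∃ a : 𝓞 K, algebraMap (𝓞 K) (𝓞 L) a - x ∈ P
        · obtain ⟨a, ha⟩ := hne
          have h9 : a ∈ (algebraMap (𝓞 K) (𝓞 L)) ⁻¹' C := by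
            rw [h4]
            exact ha
          rw [h, h6] at h9
          have h10 : algebraMap (𝓞 K) (𝓞 L) a - y ∈ P := h9
          refine ⟨1, ?_⟩
          have h11 : x - y ∈ P := by
            have := P.sub_mem h10 ha
            rwa [sub_sub_sub_cancel_left] at this
          rw [one_smul, h4, h6, coset_congr L h11]
        · push Not at hne
          obtain ⟨σ, hσ1, hσ2⟩ := exists_neg K L hp hP h3 hne
          refine ⟨σ, ?_⟩
          refine Prod.ext hσ1 ?_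
          change σ • C = C'
          rw [h4, smul_coset K L σ P x, hσ1, h6]
          apply coset_congr
          have h9 : σ • x - y = (σ • x + x) - (x + y) := by ring
          rw [h9]
          exact P.sub_mem hσ2 h8
    · exact absurd h3 (h5 x)
  · rcases h2 with ⟨y, h5, h6⟩ | ⟨-, h6⟩
    · exact absurd h5 (h3 y)
    · change C = ∅ at h4
      change C' = ∅ at h6
      exact ⟨1, by rw [one_smul, h4, h6]⟩

theorem orb_Z [IsGalois K L] {p : ℕ} (hp : p.Prime) (c : ℤ) : Orb (gal k K L)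
    (Z p c (𝓞 L)) (Z p c (𝓞 K)) (res K L) where
  mt z hz := res_mem K L z hz
  sj := by
    rintro ⟨P, D⟩ ⟨h1, h2⟩
    obtain ⟨Q, hQ, rfl⟩ := exists_over K L hp h1
    rcases h2 with ⟨a, h3, h4⟩ | ⟨h3, h4⟩
    · refine ⟨(Q, {y | y - algebraMap (𝓞 K) (𝓞 L) a ∈ Q}), ⟨hQ, Or.inl
        ⟨algebraMap (𝓞 K) (𝓞 L) a, (alg_sq K L Q a).mp h3, rfl⟩⟩, ?_⟩
      refine Prod.ext rfl ?_
      change _ = D
      change D = _ at h4
      rw [h4]
      ext y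
      change algebraMap (𝓞 K) (𝓞 L) y - algebraMap (𝓞 K) (𝓞 L) a ∈ Q ↔ y - a ∈ Q.under (𝓞 K)
      rw [under_def, mem_comap, map_sub]
    · change D = ∅ at h4
      by_cases hne : ∃ x : 𝓞 L, x ^ 2 - (c : 𝓞 L) ∈ Q
      · obtain ⟨x, hx⟩ := hne
        have hmem : (Q, {y : 𝓞 L | y - x ∈ Q}) ∈ Z p c (𝓞 L) := ⟨hQ, Or.inl ⟨x, hx, rfl⟩⟩
        refine ⟨_, hmem, ?_⟩
        refine Prod.ext rfl ?_
        have h5 := (res_mem K L _ hmem).2
        rcases h5 with ⟨b, h6, -⟩ | ⟨-, h7⟩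
        · exact absurd h6 (h3 b)
        · change _ = D
          rw [h4]
          exact h7
      · push Not at hne
        refine ⟨(Q, ∅), ⟨hQ, Or.inr ⟨hne, rfl⟩⟩, ?_⟩
        refine Prod.ext rfl ?_
        change _ = D
        rw [h4]
        rfl
  eq z hz g hg := by
    obtain ⟨σ, rfl⟩ := hg
    exact res_eq K L σ z
  ex := by
    rintro ⟨P, C⟩ hz ⟨P', C'⟩ hz' h
    have h1 : P.IsPrime := hz.1.1
    have h2 : P'.IsPrime := hz'.1.1
    obtain ⟨σ, hσ⟩ := Algebra.IsInvariant.exists_smul_of_under_eq (𝓞 K) (𝓞 L) (L ≃ₐ[K] L) P P'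
      (congrArg Prod.fst h)
    have h3 : σ • (P, C) ∈ Z p c (𝓞 L) := Z_stable K L σ _ hz
    have h4 : σ • (P, C) = (P', σ • C) := Prod.ext hσ.symm rfl
    rw [h4] at h3
    have h5 : (algebraMap (𝓞 K) (𝓞 L)) ⁻¹' (σ • C) = (algebraMap (𝓞 K) (𝓞 L)) ⁻¹' C' := by
      have h6 := congrArg Prod.snd (res_eq K L σ (P, C))
      rw [h] at h6
      exact h6
    obtain ⟨τ, hτ⟩ := ex_same K L hp P' (σ • C) C' h3 hz' h5
    refine ⟨_, ⟨τ * σ, rfl⟩, ?_⟩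
    change (τ * σ) • (P, C) = (P', C')
    rw [mul_smul, h4, hτ]

end

end Pool.Agent.K3h18.PX
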