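import Pool.Agent.K3h18.PX.Count
import Pool.Agent.K3h18.PV.Fix
import Pool.Agent.K3h18.PV.Root

/-!
# Parity of the ranks
-/

set_option autoImplicit false
set_option linter.style.haveILetI false
set_option linter.unusedSectionVars false

namespace Pool.Agent.K3h18.PX

open WeierstrassCurve Pool.Agent.K3h18.PV

section

variable (k K M L : Type) [Field k] [NumberField k] [Field K] [NumberField K]
  [Field M] [NumberField M] [Field L] [NumberField L]
  [Algebra k K] [Algebra K L] [Algebra k L] [IsScalarTower k K L]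
  [Algebra k M] [Algebra M L] [IsScalarTower k M L]

open Classical in
theorem fix_range [IsGalois K L] (W : WeierstrassCurve ℚ) :
    letI := gaF k L W
    FixedPoints.addSubgroup (gal k K L) (W.baseChange L).toAffine.Point = (jF K L W).range := by
  rw [← fixed_range K L W]
  letI := gaF k L W
  ext P
  constructor
  · intro h σ
    exact h ⟨_, ⟨σ, rfl⟩⟩
  · rintro h ⟨_, ⟨σ, rfl⟩⟩
    exact h σ

open Classical in
theorem fix_rank [IsGalois K L] (W : WeierstrassCurve ℚ) :
    letI := gaF k L W
    Module.finrank ℤ (FixedPoints.addSubgroup (gal k K L) (W.baseChange L).toAffine.Point) =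
      Module.finrank ℤ (W.baseChange K).toAffine.Point := by
  letI := gaF k L W
  rw [fix_range k K L W]
  exact (AddMonoidHom.ofInjective (jF_inj K L W)).toIntLinearEquiv.finrank_eq.symm

open Classical in
/-- the ranks over `K` and `M` have the same parity -/
theorem par_rank [IsGalois K L] [IsGalois M L] (h : PP (gal k K L) (gal k M L)) {c : ℤ × ℤ}
    (hD : 4 * c.1 ^ 3 + 27 * c.2 ^ 2 ≠ 0)
    (hT : Pool.Agent.W307.RT.HasT 2 (Pool.Agent.W307.RT.Sh c.1 c.2)) :
    Even (Module.finrank ℤ ((Pool.Agent.W307.RT.Sh c.1 c.2).baseChange K).toAffine.Point +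
      Module.finrank ℤ ((Pool.Agent.W307.RT.Sh c.1 c.2).baseChange M).toAffine.Point) := by
  have hfin := Pool.Agent.Y667.OG.fin_K L hD hT
  letI := gaF k L (Pool.Agent.W307.RT.Sh c.1 c.2)
  have h1 := h ((Pool.Agent.W307.RT.Sh c.1 c.2).baseChange L).toAffine.Point
  rw [fix_rank k K L (Pool.Agent.W307.RT.Sh c.1 c.2),
    fix_rank k M L (Pool.Agent.W307.RT.Sh c.1 c.2)] at h1
  exact h1

end

end Pool.Agent.K3h18.PX
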